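import Mathlib

/-!
The purely algebraic part.
-/

namespace H361AL

theorem lie_metabelian {V : Type*} [AddCommGroup V] (h2 : ∀ v : V, v + v = 0 → v = 0)
    (B : V → V → V) (hadd : ∀ u v w, B u (v + w) = B u v + B u w)
    (hanti : ∀ u v, B u v = - B v u)
    (hK : ∀ v w u, B (w + B v w) (u + B v u) = B w u + B v (B w u)) :
    ∀ a b c d, B (B a b) (B c d) = 0 := by
  have hadd' : ∀ u v w, B (u + v) w = B u w + B v w := by
    intro u v w
    rw [hanti, hadd, hanti w u, hanti w v]; abel
  have hz : ∀ u, B u 0 = 0 := by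
    intro u
    have := hadd u 0 0
    rw [add_zero] at this
    exact left_eq_add.1 this
  have hz' : ∀ u, B 0 u = 0 := by
    intro u; rw [hanti, hz, neg_zero]
  have hneg : ∀ u v, B u (-v) = - B u v := by
    intro u v
    have := hadd u v (-v)
    rw [add_neg_cancel, hz] at this
    exact (neg_eq_of_add_eq_zero_right this.symm).symm
  have hneg' : ∀ u v, B (-u) v = - B u v := by
    intro u v
    rw [hanti, hneg, hanti u v]
  have hE : ∀ v w u, B w (B v u) + B (B v w) u + B (B v w) (B v u) = B v (B w u) := by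
    intro v w u
    have := hK v w u
    rw [hadd, hadd', hadd'] at this
    have h3 : B w u + (B w (B v u) + B (B v w) u + B (B v w) (B v u)) = B w u + B v (B w u) := by
      rw [← this]; abel
    exact add_left_cancel h3
  have h0 : ∀ v w u, B (B v w) (B v u) = 0 := by
    intro v w u
    apply h2
    have h3 := hE v w u
    have h4 := hE (-v) w u
    simp only [hneg, hneg', neg_neg] at h4
    have h5 : (B w (B v u) + B (B v w) u + B (B v w) (B v u)) +
      (-B w (B v u) + -B (B v w) u + B (B v w) (B v u)) = B v (B w u) + -B v (B w u) := by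
      rw [h3, h4]
    rw [add_neg_cancel] at h5
    rw [← h5]; abel
  have h0' : ∀ a b c, B (B a b) (B c b) = 0 := by
    intro a b c
    rw [hanti a b, hanti c b, hneg, hneg', neg_neg, h0]
  intro a b c d
  apply h2
  have h13 : B (B a b) (B c d) + B (B c b) (B a d) = 0 := by
    have := h0 (a + c) b d
    simp only [hadd, hadd'] at this
    rw [h0, h0] at this
    rw [← this]; abel
  have h24 : B (B c b) (B a d) + B (B c d) (B a b) = 0 := by
    have := h0' c (b + d) a
    simp only [hadd, hadd'] at this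
    rw [h0', h0'] at this
    rw [← this]; abel
  have h5 := hanti (B a b) (B c d)
  have h6 : B (B a b) (B c d) = B (B c d) (B a b) := by
    have e1 := eq_neg_of_add_eq_zero_left h13
    have e2 := eq_neg_of_add_eq_zero_right h24
    rw [e1, e2]
  nth_rewrite 1 [h5]
  rw [← h6, neg_add_cancel]

theorem ring_E {E : Type*} [Ring E] (h2 : ∀ e : E, e + e = 0 → e = 0) {X Y Y' Z e : E}
    (hE1 : e = X + Y + (X * Y - Y * X)) (hE2 : e = Y' + X + (Y' * X - X * Y'))
    (hY : (1 + X) * Y = Z * (1 + X)) (hY' : (1 - X) * Y' = Z * (1 - X)) :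
    e = X + Z + (X * Z - Z * X) * X ∧ X * (X * Z - Z * X) * X = 0 := by
  have h3 : (1 + X) * (e - X) = (Z + (X * Z - Z * X)) * (1 + X) := by
    calc (1 + X) * (e - X) = ((1 + X) * Y) + X * ((1 + X) * Y) - ((1 + X) * Y) * X := by
          rw [hE1]; noncomm_ring
      _ = Z * (1 + X) + X * (Z * (1 + X)) - (Z * (1 + X)) * X := by rw [hY]
      _ = (Z + (X * Z - Z * X)) * (1 + X) := by noncomm_ring
  have h4 : (1 - X) * (e - X) = (Z - (X * Z - Z * X)) * (1 - X) := by
    calc (1 - X) * (e - X) = ((1 - X) * Y') + ((1 - X) * Y') * X - X * ((1 - X) * Y') := by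
          rw [hE2]; noncomm_ring
      _ = Z * (1 - X) + (Z * (1 - X)) * X - X * (Z * (1 - X)) := by rw [hY']
      _ = (Z - (X * Z - Z * X)) * (1 - X) := by noncomm_ring
  have h5 : e = X + Z + (X * Z - Z * X) * X := by
    rw [← sub_eq_zero]
    apply h2
    have e1 : (e - (X + Z + (X * Z - Z * X) * X)) + (e - (X + Z + (X * Z - Z * X) * X)) =
      ((1 + X) * (e - X) - (Z + (X * Z - Z * X)) * (1 + X)) +
      ((1 - X) * (e - X) - (Z - (X * Z - Z * X)) * (1 - X)) := by noncomm_ring
    rw [e1, h3, h4]; simp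
  refine ⟨h5, ?_⟩
  apply h2
  have e1 : X * (X * Z - Z * X) * X + X * (X * Z - Z * X) * X =
    ((1 + X) * ((X + Z + (X * Z - Z * X) * X) - X) - (Z + (X * Z - Z * X)) * (1 + X)) -
    ((1 - X) * ((X + Z + (X * Z - Z * X) * X) - X) - (Z - (X * Z - Z * X)) * (1 - X)) := by
    noncomm_ring
  rw [e1, ← h5, h3, h4]; simp

theorem ring_F {E : Type*} [Ring E] (h2 : ∀ e : E, e + e = 0 → e = 0) {X Z e : E}
    (he : e = X + Z + (X * Z - Z * X) * X) (h0 : X * (X * Z - Z * X) * X = 0)
    (ha : Z = -X + e + ((-X) * e - e * (-X)) * (-X))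
    (hb : (X + X) + Z + ((X + X) * Z - Z * (X + X)) * (X + X) = X + e + (X * e - e * X) * X) :
    (X * Z - Z * X) * X = 0 := by
  set C := X * Z - Z * X with hC
  have h3 : (X * e - e * X) * X = C * X - C * X * X * X := by
    have : (X * e - e * X) * X = C * X + X * C * X * X - C * X * X * X := by
      rw [he]; rw [hC]; noncomm_ring
    rw [this, h0]; noncomm_ring
  have h4 : C * X + C * X = C * X * X * X := by
    have e1 : ((-X) * e - e * (-X)) * (-X) = (X * e - e * X) * X := by noncomm_ring
    rw [e1, h3, he] at ha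
    have e2 : Z = Z + (C * X + C * X - C * X * X * X) := by
      nth_rewrite 1 [ha]; noncomm_ring
    have e3 : C * X + C * X - C * X * X * X = 0 := by
      have := e2
      exact left_eq_add.1 this
    exact sub_eq_zero.1 e3
  rw [h3, ← h4] at hb
  have e4 : ((X + X) * Z - Z * (X + X)) * (X + X) = (C * X + C * X) + (C * X + C * X) := by
    rw [hC]; noncomm_ring
  rw [e4] at hb
  have e5 : (C * X + C * X) + (C * X + C * X) = 0 := by
    have e6 : X + e + (C * X - (C * X + C * X)) = X + X + Z := by
      rw [he]; noncomm_ring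
    rw [e6] at hb
    exact add_eq_left.1 hb
  exact h2 _ (h2 _ e5)

/-- bracket -/
def br {E : Type*} [Ring E] (a b : E) : E := a * b - b * a

section
variable {E : Type*} [Ring E] (P : E → Prop)

theorem br_lin (hadd : ∀ X Y, P X → P Y → P (X + Y))
    (h1 : ∀ X Z, P X → P Z → br X Z * X = 0) {X Z Y : E} (hX : P X) (hZ : P Z) (hY : P Y) :
    br X Z * Y = - (br Y Z * X) := by
  have h := h1 (X + Y) Z (hadd X Y hX hY) hZ
  have e : br (X + Y) Z * (X + Y) = br X Z * X + br Y Z * Y + (br X Z * Y + br Y Z * X) := by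
    simp only [br]; noncomm_ring
  rw [e, h1 X Z hX hZ, h1 Y Z hY hZ, add_zero, zero_add] at h
  exact eq_neg_of_add_eq_zero_left h

theorem br_neg (a b : E) : br a b = - br b a := by simp only [br]; noncomm_ring

theorem br_br (h2 : ∀ e : E, e + e = 0 → e = 0) (hadd : ∀ X Y, P X → P Y → P (X + Y))
    (hbr : ∀ X Y, P X → P Y → P (br X Y))
    (h1 : ∀ X Z, P X → P Z → br X Z * X = 0) {A X Y : E} (hA : P A) (hX : P X) (hY : P Y) :
    br A X * br A Y = 0 := by
  have lin := fun {X Z Y : E} => br_lin P hadd h1 (X := X) (Z := Z) (Y := Y)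
  have hW : P (br A Y) := hbr A Y hA hY
  set W := br A Y with hWdef
  have hWA : W * A = 0 := h1 A Y hA hY
  -- (i)
  have i1 : br A X * W = - (A * (W * X)) := by
    rw [lin hA hX hW, br_neg W X, neg_mul, neg_neg, lin hX hW hA, br_neg A W, neg_mul, neg_neg]
    have : br W A * X = (W * A) * X - A * (W * X) := by simp only [br]; noncomm_ring
    rw [this, hWA]; simp
  -- (ii)
  have i2 : br A X * W = (W * X) * A := by
    have e1 : br A X * W = (br A X * A) * Y - (br A X * Y) * A := by
      rw [hWdef]; simp only [br]; noncomm_ring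
    have e2 : br A X * Y = - (W * X) := by
      rw [br_neg A X, neg_mul, lin hX hA hY, neg_neg, br_neg Y A, neg_mul]
    rw [e1, h1 A X hA hX, e2]; noncomm_ring
  have hF : W * X = br Y X * A := by
    rw [hWdef, lin hA hY hX, br_neg X Y, neg_mul, neg_neg]
  have hB : P (br Y X) := hbr Y X hY hX
  have i3 : A * (W * X) = (W * X) * A := by
    have h3 := h1 A (br Y X) hA hB
    have e : br A (br Y X) * A = A * (br Y X * A) - (br Y X * A) * A := by
      simp only [br]; noncomm_ring
    rw [e] at h3
    rw [hF]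
    exact sub_eq_zero.1 h3
  have i4 : (W * X) * A + (W * X) * A = 0 := by
    nth_rewrite 1 [← i2]
    rw [i1, i3]; simp
  rw [i2]
  exact h2 _ i4

theorem br_comm (h2 : ∀ e : E, e + e = 0 → e = 0) (hadd : ∀ X Y, P X → P Y → P (X + Y))
    (hbr : ∀ X Y, P X → P Y → P (br X Y))
    (h1 : ∀ X Z, P X → P Z → br X Z * X = 0) {A X A' Y : E} (hA : P A) (hX : P X) (hA' : P A')
    (hY : P Y) : br A X * br A' Y = br A' Y * br A X := by
  have hb := fun {A X Y : E} => br_br P h2 hadd hbr h1 (A := A) (X := X) (Y := Y)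
  have hb' : ∀ {A A' X : E}, P A → P A' → P X → br A X * br A' X = 0 := by
    intro A A' X hA hA' hX
    rw [br_neg A X, br_neg A' X, neg_mul_neg]
    exact hb hX hA hA'
  have l1 : br A X * br A' Y + br A' X * br A Y = 0 := by
    have h := hb (hadd A A' hA hA') hX hY
    have e : br (A + A') X * br (A + A') Y = br A X * br A Y + br A' X * br A' Y +
      (br A X * br A' Y + br A' X * br A Y) := by simp only [br]; noncomm_ring
    rw [e, hb hA hX hY, hb hA' hX hY, add_zero, zero_add] at h
    exact h
  have l2 : br A' X * br A Y + br A' Y * br A X = 0 := by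
    have h := hb' hA' hA (hadd X Y hX hY)
    have e : br A' (X + Y) * br A (X + Y) = br A' X * br A X + br A' Y * br A Y +
      (br A' X * br A Y + br A' Y * br A X) := by simp only [br]; noncomm_ring
    rw [e, hb' hA' hA hX, hb' hA' hA hY, add_zero, zero_add] at h
    exact h
  have e1 := eq_neg_of_add_eq_zero_left l1
  have e2 := eq_neg_of_add_eq_zero_right l2
  rw [e1, e2]

end

/-- a finite family of commuting square-zero endomorphisms has a common kernel vector -/
theorem common_kernel {V : Type*} [AddCommGroup V] [Finite V] {ι : Type*} [Finite ι]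
    (C : ι → AddMonoid.End V) (hc : ∀ i j, C i * C j = C j * C i) (hs : ∀ i, C i * C i = 0)
    (hne : ∃ v : V, v ≠ 0) : ∃ v : V, v ≠ 0 ∧ ∀ i, C i v = 0 := by
  obtain ⟨v, hv, hmax⟩ := Set.exists_max_image {v : V | v ≠ 0}
    (fun v => Set.ncard {i | C i v = 0}) (Set.toFinite _) hne
  refine ⟨v, hv, fun i => ?_⟩
  by_contra hi
  have h1 := hmax (C i v) hi
  have hlt : {j | C j v = 0} ⊂ {j | C j (C i v) = 0} := by
    constructor
    · intro j hj
      simp only [Set.mem_ofPred_eq] at hj ⊢
      have : (C j * C i) v = (C i * C j) v := by rw [hc]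
      change C j (C i v) = C i (C j v) at this
      rw [this, hj, map_zero]
    · intro hsub
      have h3 : i ∈ {j | C j (C i v) = 0} := by
        simp only [Set.mem_ofPred_eq]
        have : (C i * C i) v = 0 := by rw [hs]; rfl
        exact this
      exact hi (hsub h3)
  have h4 := Set.ncard_lt_ncard hlt (Set.toFinite _)
  omega

end H361AL
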