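import Mathlib

/-!
Automorphic loops: basic definitions, the antiautomorphic inverse property, the point
reflections `s x`.
-/

namespace H361AL

/-- A loop: a quasigroup with a neutral element. -/
class Loop (Q : Type*) extends Mul Q, One Q where
  one_mul' : ∀ a : Q, 1 * a = a
  mul_one' : ∀ a : Q, a * 1 = a
  left_div : ∀ a b : Q, ∃! x, a * x = b
  right_div : ∀ a b : Q, ∃! y, y * a = b

section defs

variable {Q : Type*} [Loop Q]

theorem bij_left (a : Q) : Function.Bijective (fun y : Q => a * y) := by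
  constructor
  · intro y z h
    obtain ⟨w, _, hw⟩ := Loop.left_div a (a * z)
    rw [hw y h, hw z rfl]
  · intro b
    obtain ⟨w, hw, _⟩ := Loop.left_div a b
    exact ⟨w, hw⟩

theorem bij_right (a : Q) : Function.Bijective (fun y : Q => y * a) := by
  constructor
  · intro y z h
    obtain ⟨w, _, hw⟩ := Loop.right_div a (z * a)
    rw [hw y h, hw z rfl]
  · intro b
    obtain ⟨w, hw, _⟩ := Loop.right_div a b
    exact ⟨w, hw⟩

/-- The left translation `y ↦ x y`. -/
noncomputable def L (x : Q) : Equiv.Perm Q := Equiv.ofBijective _ (bij_left x)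

/-- The right translation `y ↦ y x`. -/
noncomputable def R (x : Q) : Equiv.Perm Q := Equiv.ofBijective _ (bij_right x)

@[simp] theorem L_apply (x y : Q) : L x y = x * y := rfl
@[simp] theorem R_apply (x y : Q) : R x y = y * x := rfl

variable (Q) in
/-- The multiplication group: generated by all left and right translations. -/
noncomputable def Mlt : Subgroup (Equiv.Perm Q) :=
  Subgroup.closure (Set.range (L : Q → Equiv.Perm Q) ∪ Set.range (R : Q → Equiv.Perm Q))

variable (Q) in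
/-- A loop is automorphic if all inner mappings (the elements of the multiplication group which
fix `1`) are automorphisms. -/
class Automorphic : Prop where
  aut : ∀ f ∈ Mlt Q, f 1 = 1 → ∀ x y : Q, f (x * y) = f x * f y

end defs

variable {Q : Type*} [Loop Q]

theorem L_mem (x : Q) : L x ∈ Mlt Q :=
  Subgroup.subset_closure (Or.inl ⟨x, rfl⟩)
theorem R_mem (x : Q) : R x ∈ Mlt Q :=
  Subgroup.subset_closure (Or.inr ⟨x, rfl⟩)

theorem L_one' (x : Q) : L x 1 = x := Loop.mul_one' x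
theorem R_one' (x : Q) : R x 1 = x := Loop.one_mul' x

/-- right inverse -/
noncomputable def iv (x : Q) : Q := (L x)⁻¹ 1

theorem mul_iv (x : Q) : x * iv x = 1 := by
  have : L x ((L x)⁻¹ 1) = 1 := (L x).apply_symm_apply 1
  exact this

theorem iv_unique {x y : Q} (h : x * y = 1) : y = iv x :=
  (bij_left x).1 (by simp [h, mul_iv])

theorem iv_one : iv (1 : Q) = 1 := (iv_unique (Loop.one_mul' 1)).symm

variable [Automorphic Q]

theorem aut {f : Equiv.Perm Q} (hf : f ∈ Mlt Q) (h1 : f 1 = 1) (x y : Q) :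
    f (x * y) = f x * f y := Automorphic.aut f hf h1 x y

theorem autL {f : Equiv.Perm Q} (hf : f ∈ Mlt Q) (h1 : f 1 = 1) (x : Q) :
    f * L x = L (f x) * f := by
  ext y
  simp [aut hf h1]

theorem autR {f : Equiv.Perm Q} (hf : f ∈ Mlt Q) (h1 : f 1 = 1) (x : Q) :
    f * R x = R (f x) * f := by
  ext y
  simp [aut hf h1]

theorem aut_iv {f : Equiv.Perm Q} (hf : f ∈ Mlt Q) (h1 : f 1 = 1) (x : Q) :
    f (iv x) = iv (f x) := by
  apply iv_unique
  rw [← aut hf h1, mul_iv, h1]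

theorem iv_mul (x : Q) : iv x * x = 1 := by
  have hT : (R x)⁻¹ * L x ∈ Mlt Q := mul_mem (inv_mem (R_mem x)) (L_mem x)
  have h1 : ((R x)⁻¹ * L x) 1 = 1 := by
    rw [Equiv.Perm.mul_apply, L_one', Equiv.Perm.inv_eq_iff_eq, R_one']
  have hx : ((R x)⁻¹ * L x) x = x := by
    rw [Equiv.Perm.mul_apply, Equiv.Perm.inv_eq_iff_eq, L_apply, R_apply]
  have h2 := aut_iv hT h1 x
  rw [hx, Equiv.Perm.mul_apply, Equiv.Perm.inv_eq_iff_eq, L_apply, R_apply, mul_iv] at h2
  exact h2.symm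

theorem iv_iv (x : Q) : iv (iv x) = x := (iv_unique (iv_mul x)).symm

/-- inversion as a permutation -/
noncomputable def J : Equiv.Perm Q := ⟨iv, iv, iv_iv, iv_iv⟩

@[simp] theorem J_apply (x : Q) : (J : Equiv.Perm Q) x = iv x := rfl

theorem J_mul_J : (J : Equiv.Perm Q) * J = 1 := by
  ext x; simp [iv_iv]

theorem autJ {f : Equiv.Perm Q} (hf : f ∈ Mlt Q) (h1 : f 1 = 1) :
    f * J = J * f := by
  ext y
  simp [aut_iv hf h1]

/-- `L x` and `L (iv x)` commute -/
theorem comm_L_L (x : Q) : L (iv x) * L x = L x * L (iv x) := by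
  have hm : L x * L (iv x) ∈ Mlt Q := mul_mem (L_mem _) (L_mem _)
  have h1 : (L x * L (iv x)) 1 = 1 := by
    rw [Equiv.Perm.mul_apply, L_one', L_apply, mul_iv]
  have hx : (L x * L (iv x)) x = x := by
    rw [Equiv.Perm.mul_apply, L_apply, L_apply, iv_mul, Loop.mul_one']
  have h := autL hm h1 x
  rw [hx, mul_assoc] at h
  exact mul_left_cancel h

theorem comm_R_R (x : Q) : R (iv x) * R x = R x * R (iv x) := by
  have hm : R x * R (iv x) ∈ Mlt Q := mul_mem (R_mem _) (R_mem _)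
  have h1 : (R x * R (iv x)) 1 = 1 := by
    rw [Equiv.Perm.mul_apply, R_one', R_apply, iv_mul]
  have hx : (R x * R (iv x)) x = x := by
    rw [Equiv.Perm.mul_apply, R_apply, R_apply, mul_iv, Loop.one_mul']
  have h := autR hm h1 x
  rw [hx, mul_assoc] at h
  exact mul_left_cancel h

omit [Automorphic Q] in
theorem T_mem (x : Q) : (R x)⁻¹ * L x ∈ Mlt Q := mul_mem (inv_mem (R_mem x)) (L_mem x)

omit [Automorphic Q] in
theorem T_one (x : Q) : ((R x)⁻¹ * L x) 1 = 1 := by
  rw [Equiv.Perm.mul_apply, L_one', Equiv.Perm.inv_eq_iff_eq, R_one']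

/-- the antiautomorphic inverse property -/
theorem aaip (x y : Q) : iv (x * y) = iv y * iv x := by
  set v := x * y with hv
  set φ := (R v)⁻¹ * L x * L y with hφ
  have hφm : φ ∈ Mlt Q := mul_mem (mul_mem (inv_mem (R_mem _)) (L_mem _)) (L_mem _)
  have hφ1 : φ 1 = 1 := by
    rw [hφ, Equiv.Perm.mul_apply, Equiv.Perm.mul_apply, Equiv.Perm.inv_eq_iff_eq, L_one', R_one',
      L_apply]
  have hφy : φ (iv y) = (R v)⁻¹ x := by
    rw [hφ, Equiv.Perm.mul_apply, Equiv.Perm.mul_apply, L_apply y, mul_iv, L_one']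
  have h1 := autL hφm hφ1 (iv y)
  rw [hφy, hφ] at h1
  have h2 : (R v)⁻¹ * L x * L (iv y) = L ((R v)⁻¹ x) * ((R v)⁻¹ * L x) := by
    have h3 : (R v)⁻¹ * L x * L (iv y) * L y = L ((R v)⁻¹ x) * ((R v)⁻¹ * L x) * L y := by
      rw [mul_assoc ((R v)⁻¹ * L x), comm_L_L, ← mul_assoc, h1, mul_assoc, mul_assoc, mul_assoc]
    exact mul_right_cancel h3
  -- apply at c
  obtain ⟨c, hc⟩ := (bij_left x).2 (v * v)
  simp only at hc
  have h4 : ((R v)⁻¹ * L x * L (iv y)) c = (L ((R v)⁻¹ x) * ((R v)⁻¹ * L x)) c := by rw [h2]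
  have h5 : (R v)⁻¹ (v * v) = v := by
    rw [Equiv.Perm.inv_eq_iff_eq, R_apply]
  have h6 : (R v)⁻¹ x * v = x := by
    have : R v ((R v)⁻¹ x) = x := (R v).apply_symm_apply x
    exact this
  simp only [Equiv.Perm.mul_apply] at h4
  rw [L_apply x c, hc, h5, L_apply ((R v)⁻¹ x) v, h6, Equiv.Perm.inv_eq_iff_eq, L_apply, L_apply,
    R_apply] at h4
  have h7 : iv y * c = v := (bij_left x).1 h4
  -- δ
  set δ := (L v)⁻¹ * L x * (L (iv y))⁻¹ with hδ
  have hδm : δ ∈ Mlt Q := mul_mem (mul_mem (inv_mem (L_mem _)) (L_mem _)) (inv_mem (L_mem _))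
  have hδ1 : δ 1 = 1 := by
    have : (L (iv y))⁻¹ 1 = y := by
      rw [Equiv.Perm.inv_eq_iff_eq, L_apply, iv_mul]
    rw [hδ, Equiv.Perm.mul_apply, Equiv.Perm.mul_apply, this, Equiv.Perm.inv_eq_iff_eq, L_one',
      L_apply]
  have hδv : δ v = v := by
    have : (L (iv y))⁻¹ v = c := by
      rw [Equiv.Perm.inv_eq_iff_eq, L_apply, h7]
    rw [hδ, Equiv.Perm.mul_apply, Equiv.Perm.mul_apply, this, Equiv.Perm.inv_eq_iff_eq, L_apply,
      L_apply, hc]
  have h8 : δ (iv v) = iv v := by rw [aut_iv hδm hδ1, hδv]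
  have h9 : δ (iv y * iv x) = iv v := by
    have : (L (iv y))⁻¹ (iv y * iv x) = iv x := by
      rw [Equiv.Perm.inv_eq_iff_eq, L_apply]
    rw [hδ, Equiv.Perm.mul_apply, Equiv.Perm.mul_apply, this, Equiv.Perm.inv_eq_iff_eq, L_apply,
      L_apply, mul_iv, mul_iv]
  exact δ.injective (h8.trans h9.symm)

theorem JLJ (x : Q) : J * L x * J = R (iv x) := by
  ext y
  simp [aaip, iv_iv]

theorem JRJ (x : Q) : J * R x * J = L (iv x) := by
  ext y
  simp [aaip, iv_iv]

/-- the point reflection at `x` -/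
noncomputable def s (x : Q) : Equiv.Perm Q := L x * J * (L x)⁻¹

theorem J_inv : (J : Equiv.Perm Q)⁻¹ = J := by
  rw [inv_eq_iff_mul_eq_one]; exact J_mul_J

theorem s_one : s (1 : Q) = J := by
  have : L (1 : Q) = 1 := by ext y; simp [Loop.one_mul']
  rw [s, this]; simp

theorem s_mul_s (x : Q) : s x * s x = 1 := by
  rw [s]
  have : L x * J * (L x)⁻¹ * (L x * J * (L x)⁻¹) = L x * (J * J) * (L x)⁻¹ := by group
  rw [this, J_mul_J]; simp

theorem s_inv (x : Q) : (s x)⁻¹ = s x := by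
  rw [inv_eq_iff_mul_eq_one]; exact s_mul_s x

theorem s_self (x : Q) : s x x = x := by
  have h : (L x)⁻¹ x = 1 := by rw [Equiv.Perm.inv_eq_iff_eq, L_one']
  rw [s, Equiv.Perm.mul_apply, Equiv.Perm.mul_apply, h, J_apply, iv_one, L_one']

theorem s_apply_one (x : Q) : s x 1 = x * x := by
  have h : (L x)⁻¹ 1 = iv x := rfl
  rw [s, Equiv.Perm.mul_apply, Equiv.Perm.mul_apply, h, J_apply, iv_iv, L_apply]

theorem s_eq_R (x : Q) : s x = R x * J * (R x)⁻¹ := by
  have h := autJ (T_mem x) (T_one x)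
  rw [s]
  have : L x * J * (L x)⁻¹ = R x * ((R x)⁻¹ * L x * J) * (L x)⁻¹ := by group
  rw [this, h]; group

/-- elements of `Mlt` are compatible with the reflections -/
theorem conj_s_mlt {g : Equiv.Perm Q} (hg : g ∈ Mlt Q) (x : Q) : g * s x * g⁻¹ = s (g x) := by
  have hm : (L (g x))⁻¹ * g * L x ∈ Mlt Q :=
    mul_mem (mul_mem (inv_mem (L_mem _)) hg) (L_mem _)
  have h1 : ((L (g x))⁻¹ * g * L x) 1 = 1 := by
    rw [Equiv.Perm.mul_apply, Equiv.Perm.mul_apply, L_one', Equiv.Perm.inv_eq_iff_eq, L_one']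
  have h := autJ hm h1
  have e : g * s x * g⁻¹ = L (g x) * ((L (g x))⁻¹ * g * L x * J) * ((L x)⁻¹ * g⁻¹) := by
    rw [s]; group
  rw [e, h, s]; group

theorem conj_s_J (x : Q) : J * s x * J = s (iv x) := by
  have e : J * s x * J = (J * L x * J) * J * (J * L x * J)⁻¹ := by
    rw [s]
    simp only [mul_inv_rev, J_inv]
    have : J * L x * J * J * (J * ((L x)⁻¹ * J)) = J * L x * (J * J) * J * (L x)⁻¹ * J := by group
    rw [this, J_mul_J]; group
  rw [e, JLJ, s_eq_R]

variable (Q) in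
/-- the group generated by the multiplication group and `J` -/
noncomputable def Gh : Subgroup (Equiv.Perm Q) := Subgroup.closure ((Mlt Q : Set _) ∪ {J})

theorem mlt_le : Mlt Q ≤ Gh Q := fun _ hg => Subgroup.subset_closure (Or.inl hg)
theorem J_mem : (J : Equiv.Perm Q) ∈ Gh Q := Subgroup.subset_closure (Or.inr rfl)

theorem s_mem (x : Q) : s x ∈ Gh Q :=
  mul_mem (mul_mem (mlt_le (L_mem x)) J_mem) (inv_mem (mlt_le (L_mem x)))

theorem conj_s {g : Equiv.Perm Q} (hg : g ∈ Gh Q) : ∀ x : Q, g * s x * g⁻¹ = s (g x) := by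
  induction hg using Subgroup.closure_induction with
  | mem g hg =>
    rcases hg with hg | hg
    · exact fun x => conj_s_mlt hg x
    · intro x
      rw [Set.mem_singleton_iff] at hg
      rw [hg, J_inv, conj_s_J, J_apply]
  | one => intro x; simp
  | mul g h _ _ ihg ihh =>
    intro x
    have : g * h * s x * (g * h)⁻¹ = g * (h * s x * h⁻¹) * g⁻¹ := by group
    rw [this, ihh, ihg, Equiv.Perm.mul_apply]
  | inv g _ ih =>
    intro x
    have h := ih (g⁻¹ x)
    rw [show g (g⁻¹ x) = x from g.apply_symm_apply x] at h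
    rw [← h]; group

end H361AL
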