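import Pool.Agent.H361R3.AL.Prod

/-!
The elementary abelian group `W = Ω₁(Z(N))`, `N` the group generated by the products of two
reflections, with the action of the multiplication group on it.
-/

namespace H361AL

variable (Q : Type*) [Loop Q] [Automorphic Q]

/-- the group generated by the `s a * s 1` -/
noncomputable def N : Subgroup (Equiv.Perm Q) :=
  Subgroup.closure (Set.range fun a : Q => s a * s 1)

variable {Q}

theorem P_mem_N (a : Q) : s a * s 1 ∈ N Q := Subgroup.subset_closure ⟨a, rfl⟩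

theorem P_eq (a : Q) : s a * s 1 = L a * (R (iv a))⁻¹ := by
  rw [← JLJ, s, s_one]
  simp only [mul_inv_rev, J_inv]
  group

theorem P_mem_mlt (a : Q) : s a * s 1 ∈ Mlt Q := by
  rw [P_eq]; exact mul_mem (L_mem _) (inv_mem (R_mem _))

theorem N_le_mlt : N Q ≤ Mlt Q := by
  rw [N, Subgroup.closure_le]
  rintro _ ⟨a, rfl⟩
  exact P_mem_mlt a

theorem N_conj {g : Equiv.Perm Q} (hg : g ∈ Gh Q) {n : Equiv.Perm Q} (hn : n ∈ N Q) :
    g * n * g⁻¹ ∈ N Q := by
  have hle : N Q ≤ (N Q).comap (MulAut.conj g).toMonoidHom := by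
    conv_lhs => rw [N]
    rw [Subgroup.closure_le]
    rintro _ ⟨a, rfl⟩
    simp only [MulEquiv.toMonoidHom_eq_coe, Subgroup.coe_comap, MonoidHom.coe_coe,
      Set.mem_preimage, MulAut.conj_apply, SetLike.mem_coe]
    have e : g * (s a * s 1) * g⁻¹ = (s (g a) * s 1) * (s (g 1) * s 1)⁻¹ := by
      rw [sw_inv]
      have h2 : s (g a) * s 1 * (s 1 * s (g 1)) = s (g a) * (s 1 * s 1) * s (g 1) := by group
      rw [h2, s_mul_s, mul_one, ← conj_s hg a, ← conj_s hg 1]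
      group
    rw [e]
    exact mul_mem (P_mem_N _) (inv_mem (P_mem_N _))
  have := hle hn
  rw [Subgroup.mem_comap] at this
  simpa only [MulEquiv.toMonoidHom_eq_coe, MonoidHom.coe_coe, MulAut.conj_apply] using this

theorem sq_surj [Finite Q] (hodd : Odd (Nat.card Q)) (x : Q) : ∃ r : Q, r * r = x := by
  have hinj : Function.Injective (fun r : Q => r * r) := by
    intro a b h
    simp only at h
    rw [← s_apply_one, ← s_apply_one] at h
    have h1 : (s b * s a) 1 = 1 := by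
      rw [Equiv.Perm.mul_apply, h, ← Equiv.Perm.mul_apply, s_mul_s]; rfl
    exact (semireg hodd h1).symm
  exact (Finite.surjective_of_injective hinj) x

theorem P_one (r : Q) : (s r * s (1 : Q)) (1 : Q) = r * r := by
  rw [Equiv.Perm.mul_apply, s_self, s_apply_one]

theorem N_trans [Finite Q] (hodd : Odd (Nat.card Q)) (x : Q) : ∃ n ∈ N Q, n 1 = x := by
  obtain ⟨r, hr⟩ := sq_surj hodd x
  exact ⟨s r * s 1, P_mem_N r, by rw [P_one, hr]⟩

theorem N_pgroup [Finite Q] {p k : ℕ} (hp : p.Prime) (hodd : Odd (Nat.card Q))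
    (hcard : Nat.card Q = p ^ k) : IsPGroup p (N Q) := by
  obtain ⟨S, hS, _, hS2⟩ := exists_pgroup hp hodd hcard
  refine hS.to_le ?_
  rw [N, Subgroup.closure_le]
  rintro _ ⟨a, rfl⟩
  exact hS2 a

variable (Q) in
/-- `Ω₁(Z(N))` -/
noncomputable def W (p : ℕ) : Subgroup (Equiv.Perm Q) where
  carrier := {v | v ∈ N Q ∧ (∀ n ∈ N Q, n * v = v * n) ∧ v ^ p = 1}
  one_mem' := ⟨one_mem _, fun n _ => by rw [mul_one, one_mul], one_pow _⟩
  mul_mem' := by
    rintro v w ⟨hv1, hv2, hv3⟩ ⟨hw1, hw2, hw3⟩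
    refine ⟨mul_mem hv1 hw1, ?_, ?_⟩
    · intro n hn
      rw [← mul_assoc, hv2 n hn, mul_assoc, hw2 n hn, mul_assoc]
    · have hc : Commute v w := hw2 v hv1
      rw [hc.mul_pow, hv3, hw3, one_mul]
  inv_mem' := by
    rintro v ⟨hv1, hv2, hv3⟩
    refine ⟨inv_mem hv1, ?_, ?_⟩
    · intro n hn
      have hc : Commute n v := hv2 n hn
      exact hc.inv_right
    · rw [inv_pow, hv3, inv_one]

theorem W_le_N {p : ℕ} {v : Equiv.Perm Q} (hv : v ∈ W Q p) : v ∈ N Q := hv.1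

theorem W_comm {p : ℕ} {v w : Equiv.Perm Q} (hv : v ∈ W Q p) (hw : w ∈ W Q p) : v * w = w * v :=
  hw.2.1 v hv.1

theorem W_conj {p : ℕ} {g : Equiv.Perm Q} (hg : g ∈ Gh Q) {v : Equiv.Perm Q} (hv : v ∈ W Q p) :
    g * v * g⁻¹ ∈ W Q p := by
  obtain ⟨hv1, hv2, hv3⟩ := hv
  refine ⟨N_conj hg hv1, ?_, ?_⟩
  · intro n hn
    have h1 : g⁻¹ * n * g ∈ N Q := by
      have := N_conj (inv_mem hg) hn
      rwa [inv_inv] at this
    have h2 := hv2 _ h1
    have e1 : n * (g * v * g⁻¹) = g * ((g⁻¹ * n * g) * v) * g⁻¹ := by group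
    have e2 : g * v * g⁻¹ * n = g * (v * (g⁻¹ * n * g)) * g⁻¹ := by group
    rw [e1, e2, h2]
  · rw [conj_pow, hv3]; group

theorem W_semireg [Finite Q] (hodd : Odd (Nat.card Q)) {p : ℕ} {v : Equiv.Perm Q}
    (hv : v ∈ W Q p) {z : Q} (hz : v z = z) : v = 1 := by
  ext y
  obtain ⟨n, hn, hn1⟩ := N_trans hodd z
  obtain ⟨m, hm, hm1⟩ := N_trans hodd y
  have hc := hv.2.1 (m * n⁻¹) (mul_mem hm (inv_mem hn))
  have e : (m * n⁻¹) z = y := by
    rw [Equiv.Perm.mul_apply, ← hn1]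
    have : n⁻¹ (n 1) = 1 := n.symm_apply_apply 1
    rw [this, hm1]
  have h1 : (m * n⁻¹ * v) z = (v * (m * n⁻¹)) z := by rw [hc]
  rw [Equiv.Perm.mul_apply (m * n⁻¹) v, hz, e, Equiv.Perm.mul_apply v, e] at h1
  rw [← h1]; rfl

/-- `J` inverts `W` -/
theorem W_J [Finite Q] (hodd : Odd (Nat.card Q)) {p : ℕ} {v : Equiv.Perm Q}
    (hv : v ∈ W Q p) : J * v * J = v⁻¹ := by
  have h1 : J * v * J ∈ W Q p := by
    have := W_conj (J_mem (Q := Q)) hv
    rwa [J_inv] at this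
  set w := J * v * J * v with hw
  have hwW : w ∈ W Q p := mul_mem h1 hv
  have hJw : J * w = w * J := by
    have e1 : J * w = (J * J) * v * J * v := by rw [hw]; group
    have e2 : w * J = v * (J * v * J) * J := by rw [hw, W_comm h1 hv]
    have e3 : v * (J * v * J) * J = v * J * v * (J * J) := by group
    rw [e1, e2, e3, J_mul_J, one_mul, mul_one]
  have h2 : w * s 1 * w⁻¹ = s 1 := by
    rw [s_one, ← hJw]; group
  rw [conj_s (mlt_le (N_le_mlt (W_le_N hwW)))] at h2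
  have h3 := s_inj hodd h2
  have h4 := W_semireg hodd hwW h3
  rw [hw] at h4
  exact eq_inv_of_mul_eq_one_left h4

noncomputable instance instCommW (p : ℕ) : CommGroup ↥(W Q p) :=
  { (inferInstance : Group ↥(W Q p)) with
    mul_comm := fun a b => Subtype.ext (W_comm a.2 b.2) }

variable (Q) in
/-- additive version -/
abbrev V (p : ℕ) := Additive ↥(W Q p)

/-- the permutation of an element of `V` -/
noncomputable def pm {p : ℕ} (v : V Q p) : Equiv.Perm Q := (Additive.toMul v).1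

theorem pm_mem {p : ℕ} (v : V Q p) : pm v ∈ W Q p := (Additive.toMul v).2
theorem pm_add {p : ℕ} (v w : V Q p) : pm (v + w) = pm v * pm w := rfl
theorem pm_neg {p : ℕ} (v : V Q p) : pm (-v) = (pm v)⁻¹ := rfl
theorem pm_zero {p : ℕ} : pm (0 : V Q p) = 1 := rfl
theorem pm_inj {p : ℕ} {v w : V Q p} (h : pm v = pm w) : v = w := Subtype.ext h

theorem pm_mlt {p : ℕ} (v : V Q p) : pm v ∈ Mlt Q := N_le_mlt (W_le_N (pm_mem v))

theorem pm_semireg [Finite Q] (hodd : Odd (Nat.card Q)) {p : ℕ} {v w : V Q p} {z : Q}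
    (h : pm v z = pm w z) : v = w := by
  have h1 : pm (-w + v) z = z := by
    rw [pm_add, pm_neg, Equiv.Perm.mul_apply, h]
    exact (pm w).symm_apply_apply z
  have h2 := W_semireg hodd (pm_mem (-w + v)) h1
  rw [← pm_zero] at h2
  have h3 := pm_inj h2
  rw [neg_add_eq_zero] at h3
  exact h3.symm

/-- conjugation action -/
noncomputable def conjW {p : ℕ} (g : Gh Q) : ↥(W Q p) →* ↥(W Q p) where
  toFun w := ⟨g.1 * w.1 * g.1⁻¹, W_conj g.2 w.2⟩
  map_one' := by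
    apply Subtype.ext
    change g.1 * 1 * g.1⁻¹ = 1
    group
  map_mul' := by
    intro a b
    apply Subtype.ext
    change g.1 * (a.1 * b.1) * g.1⁻¹ = (g.1 * a.1 * g.1⁻¹) * (g.1 * b.1 * g.1⁻¹)
    group

/-- the action of `g` on `V` -/
noncomputable def ρ {p : ℕ} (g : Gh Q) : AddMonoid.End (V Q p) := MonoidHom.toAdditive (conjW g)

theorem pm_ρ {p : ℕ} (g : Gh Q) (v : V Q p) : pm (ρ g v) = g.1 * pm v * g.1⁻¹ := rfl

theorem ρ_one {p : ℕ} : (ρ (1 : Gh Q) : AddMonoid.End (V Q p)) = 1 := by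
  refine DFunLike.ext _ _ fun v => ?_
  apply pm_inj
  rw [pm_ρ]
  change 1 * pm v * 1⁻¹ = pm v
  group

theorem ρ_mul {p : ℕ} (g h : Gh Q) : (ρ (g * h) : AddMonoid.End (V Q p)) = ρ g * ρ h := by
  refine DFunLike.ext _ _ fun v => ?_
  apply pm_inj
  rw [pm_ρ]
  change g.1 * h.1 * pm v * (g.1 * h.1)⁻¹ = pm (ρ g (ρ h v))
  rw [pm_ρ, pm_ρ]
  group

theorem ρ_N {p : ℕ} (g : Gh Q) (hg : g.1 ∈ N Q) : (ρ g : AddMonoid.End (V Q p)) = 1 := by
  refine DFunLike.ext _ _ fun v => ?_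
  apply pm_inj
  rw [pm_ρ, (pm_mem v).2.1 g.1 hg]
  change pm v * g.1 * g.1⁻¹ = pm v
  group

/-- `L x` as an element of `Gh` -/
noncomputable def Lg (x : Q) : Gh Q := ⟨L x, mlt_le (L_mem x)⟩
/-- `R x` as an element of `Gh` -/
noncomputable def Rg (x : Q) : Gh Q := ⟨R x, mlt_le (R_mem x)⟩
/-- `s r * s 1` as an element of `Gh` -/
noncomputable def Pg (x : Q) : Gh Q := ⟨s x * s 1, mlt_le (P_mem_mlt x)⟩

theorem ρ_R {p : ℕ} (x : Q) : (ρ (Rg x) : AddMonoid.End (V Q p)) = ρ (Lg (iv x)) := by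
  have h : Lg (iv x) = Pg (iv x) * Rg x := by
    apply Subtype.ext
    change L (iv x) = s (iv x) * s 1 * R x
    rw [P_eq, iv_iv]; group
  rw [h, ρ_mul, ρ_N (Pg (iv x)) (P_mem_N _), one_mul]

/-- the endomorphisms `D x = ρ (L x) - 1` -/
noncomputable def D {p : ℕ} (x : Q) : AddMonoid.End (V Q p) := ρ (Lg x) - 1

theorem ρ_L {p : ℕ} (x : Q) : (ρ (Lg x) : AddMonoid.End (V Q p)) = 1 + D x := by
  rw [D]; abel

theorem ρ_L_apply {p : ℕ} (x : Q) (v : V Q p) : ρ (Lg x) v = v + D x v := by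
  rw [ρ_L]; rfl

theorem mul_pm {p : ℕ} (x : Q) (v : V Q p) (y : Q) :
    x * (pm v y) = pm (ρ (Lg x) v) (x * y) := by
  rw [pm_ρ]
  change x * pm v y = (L x * pm v * (L x)⁻¹) (x * y)
  have : (L x)⁻¹ (x * y) = y := by rw [Equiv.Perm.inv_eq_iff_eq, L_apply]
  rw [Equiv.Perm.mul_apply, Equiv.Perm.mul_apply, this, L_apply]

theorem pm_mul {p : ℕ} (x : Q) (v : V Q p) (y : Q) :
    (pm v y) * x = pm (ρ (Lg (iv x)) v) (y * x) := by
  rw [← ρ_R, pm_ρ]
  change pm v y * x = (R x * pm v * (R x)⁻¹) (y * x)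
  have : (R x)⁻¹ (y * x) = y := by rw [Equiv.Perm.inv_eq_iff_eq, R_apply]
  rw [Equiv.Perm.mul_apply, Equiv.Perm.mul_apply, this, R_apply]

theorem s_pm [Finite Q] (hodd : Odd (Nat.card Q)) {p : ℕ} (v : V Q p) :
    s (pm v 1) * s 1 = pm v * pm v := by
  rw [← conj_s (mlt_le (pm_mlt v)), s_one]
  have h := W_J hodd (pm_mem (-v))
  rw [pm_neg, inv_inv] at h
  have : pm v * J * (pm v)⁻¹ * J = pm v * (J * (pm v)⁻¹ * J) := by group
  rw [this, h]

theorem iv_pm [Finite Q] (hodd : Odd (Nat.card Q)) {p : ℕ} (v : V Q p) :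
    iv (pm v 1) = pm (-v) 1 := by
  have h := W_J hodd (pm_mem v)
  rw [pm_neg, ← h]
  simp only [Equiv.Perm.mul_apply, J_apply, iv_one]

/-- `D (iv x) = - D x` -/
theorem D_iv [Finite Q] (hodd : Odd (Nat.card Q)) {p : ℕ} (x : Q) :
    (D (iv x) : AddMonoid.End (V Q p)) = - D x := by
  refine DFunLike.ext _ _ fun v => ?_
  have h1 : (pm v 1) * x = pm (ρ (Lg (iv x)) v) x := by
    have := pm_mul x v 1
    rwa [Loop.one_mul'] at this
  have h2 : L (pm v 1) = pm v * pm v * R (pm (-v) 1) := by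
    rw [← s_pm hodd, P_eq, iv_pm hodd]; group
  have h3 : (pm v 1) * x = pm (v + v + ρ (Lg x) (-v)) x := by
    have h4 : L (pm v 1) x = (pm v * pm v * R (pm (-v) 1)) x := by rw [h2]
    rw [Equiv.Perm.mul_apply, L_apply, R_apply] at h4
    rw [h4, mul_pm x (-v) 1, Loop.mul_one', pm_add, pm_add]
    rfl
  rw [h1] at h3
  have h5 := pm_semireg hodd h3
  rw [ρ_L_apply, ρ_L_apply] at h5
  have h6 : D (iv x) v = v + (-v) + D x (-v) := by
    have : D (iv x) v = (v + D (iv x) v) - v := by abel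
    rw [this, h5]; abel
  rw [h6, map_neg]
  change v + -v + -(D x v) = - (D x v)
  abel

theorem ρ_D {p : ℕ} (h : Gh Q) (hm : h.1 ∈ Mlt Q) (h1 : h.1 1 = 1) (x : Q) :
    (ρ h * D x : AddMonoid.End (V Q p)) = D (h.1 x) * ρ h := by
  have e : h * Lg x = Lg (h.1 x) * h := by
    apply Subtype.ext
    exact autL hm h1 x
  have h2 : (ρ h * ρ (Lg x) : AddMonoid.End (V Q p)) = ρ (Lg (h.1 x)) * ρ h := by
    rw [← ρ_mul, e, ρ_mul]
  rw [ρ_L, ρ_L, mul_add, add_mul, mul_one, one_mul] at h2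
  exact add_left_cancel h2

/-- the inner mapping `A v = v⁻¹ L_{v 1}` -/
noncomputable def A {p : ℕ} (v : V Q p) : Gh Q :=
  ⟨(pm v)⁻¹ * L (pm v 1), mlt_le (mul_mem (inv_mem (pm_mlt v)) (L_mem _))⟩

theorem A_mlt {p : ℕ} (v : V Q p) : (A v).1 ∈ Mlt Q := mul_mem (inv_mem (pm_mlt v)) (L_mem _)

theorem A_one {p : ℕ} (v : V Q p) : (A v).1 1 = 1 := by
  change ((pm v)⁻¹ * L (pm v 1)) 1 = 1
  rw [Equiv.Perm.mul_apply, L_one', Equiv.Perm.inv_eq_iff_eq]

theorem ρ_A {p : ℕ} (v : V Q p) : (ρ (A v) : AddMonoid.End (V Q p)) = 1 + D (pm v 1) := by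
  have e : A v = ⟨(pm v)⁻¹, mlt_le (inv_mem (pm_mlt v))⟩ * Lg (pm v 1) := rfl
  rw [e, ρ_mul, ρ_N _ (inv_mem (W_le_N (pm_mem v))), one_mul, ρ_L]

theorem A_apply [Finite Q] (hodd : Odd (Nat.card Q)) {p : ℕ} (v : V Q p) (x : Q) :
    (A v).1 x = pm (- D x v) x := by
  change ((pm v)⁻¹ * L (pm v 1)) x = _
  rw [Equiv.Perm.mul_apply, L_apply]
  have := pm_mul x v 1
  rw [Loop.one_mul'] at this
  rw [this, ← pm_neg, ← Equiv.Perm.mul_apply, ← pm_add, ρ_L_apply, D_iv hodd]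
  congr 2
  change -v + (v + -(D x v)) = _
  abel

/-- antisymmetry -/
theorem D_antisymm [Finite Q] (hodd : Odd (Nat.card Q)) {p : ℕ} (v w : V Q p) :
    D (pm v 1) w = - D (pm w 1) v := by
  have h1 := A_apply hodd v (pm w 1)
  have h2 : (A v).1 (pm w 1) = pm (ρ (A v) w) 1 := by
    rw [pm_ρ]
    have : ((A v).1)⁻¹ 1 = 1 := by rw [Equiv.Perm.inv_eq_iff_eq, A_one]
    rw [Equiv.Perm.mul_apply, Equiv.Perm.mul_apply, this]
  rw [h2, ← Equiv.Perm.mul_apply, ← pm_add] at h1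
  have h3 := pm_semireg hodd h1
  rw [ρ_A] at h3
  change w + D (pm v 1) w = _ at h3
  rw [add_comm (- D (pm w 1) v)] at h3
  exact add_left_cancel h3

/-- the formula for `D (x * y)` -/
theorem D_mul [Finite Q] (hodd : Odd (Nat.card Q)) {p : ℕ} (v : V Q p) (x y : Q) :
    D (x * y) v = D y v + D ((A v).1 x) (D y v) + D x v - D y (D x v) := by
  have h1 := aut (A_mlt v) (A_one v) x y
  rw [A_apply hodd v (x * y)] at h1
  have h2 : (A v).1 x * (A v).1 y =
      pm (ρ (Lg ((A v).1 x)) (- D y v) + ρ (Lg (iv y)) (- D x v)) (x * y) := by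
    rw [A_apply hodd v y, mul_pm, pm_add, Equiv.Perm.mul_apply]
    congr 1
    rw [A_apply hodd v x, pm_mul]
  rw [h2] at h1
  have h3 := pm_semireg hodd h1
  rw [ρ_L_apply, ρ_L_apply, D_iv hodd, map_neg] at h3
  have h4 : (- D y : AddMonoid.End (V Q p)) (- D x v) = D y (D x v) := by
    change -(D y (- D x v)) = _
    rw [map_neg, neg_neg]
  rw [h4] at h3
  rw [← neg_inj, h3]
  abel

theorem D_A {p : ℕ} (v : V Q p) (x : Q) :
    ((1 + D (pm v 1)) * D x : AddMonoid.End (V Q p)) = D ((A v).1 x) * (1 + D (pm v 1)) := by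
  have := ρ_D (p := p) (A v) (A_mlt v) (A_one v) x
  rwa [ρ_A] at this

theorem A_pm {p : ℕ} (v w : V Q p) :
    (A v).1 (pm w 1) = pm (w + D (pm v 1) w) 1 := by
  have h2 : (A v).1 (pm w 1) = pm (ρ (A v) w) 1 := by
    rw [pm_ρ]
    have : ((A v).1)⁻¹ 1 = 1 := by rw [Equiv.Perm.inv_eq_iff_eq, A_one]
    rw [Equiv.Perm.mul_apply, Equiv.Perm.mul_apply, this]
  rw [h2, ρ_A]
  rfl

/-- `W` is nontrivial -/
theorem exists_ne_zero [Finite Q] {p k : ℕ} (hp : p.Prime) (hodd : Odd (Nat.card Q))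
    (hcard : Nat.card Q = p ^ k) (hk : 1 ≤ k) : ∃ v : V Q p, v ≠ 0 := by
  have hfp : Fact p.Prime := ⟨hp⟩
  have hN := N_pgroup hp hodd hcard
  have hnt : Nontrivial (N Q) := by
    have h1 : 1 < Nat.card Q := by
      rw [hcard]; exact Nat.one_lt_pow (by omega) hp.one_lt
    rw [Finite.one_lt_card_iff_nontrivial] at h1
    obtain ⟨a, ha⟩ := exists_ne (1 : Q)
    refine ⟨⟨⟨s a * s 1, P_mem_N a⟩, 1, ?_⟩⟩
    intro h
    have h2 : s a * s 1 = 1 := congrArg Subtype.val h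
    have h3 := mul_eq_one_iff_eq_inv.1 h2
    rw [s_inv] at h3
    exact ha (s_inj hodd h3)
  have hZ : Nontrivial (Subgroup.center (N Q)) := hN.center_nontrivial
  have hZp : IsPGroup p (Subgroup.center (N Q)) := hN.to_subgroup _
  obtain ⟨n, hn⟩ := IsPGroup.iff_card.1 hZp
  have hn0 : n ≠ 0 := by
    rintro rfl
    rw [pow_zero] at hn
    have := Finite.one_lt_card (α := Subgroup.center (N Q))
    omega
  have hdvd : p ∣ Nat.card (Subgroup.center (N Q)) := by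
    rw [hn]; exact dvd_pow_self p hn0
  obtain ⟨c, hc⟩ := exists_prime_orderOf_dvd_card' p hdvd
  have hcp : c ^ p = 1 := by rw [← hc]; exact pow_orderOf_eq_one c
  have hc1 : c ≠ 1 := by
    rintro rfl
    rw [orderOf_one] at hc
    exact hp.one_lt.ne hc
  refine ⟨Additive.ofMul ⟨c.1.1, c.1.2, ?_, ?_⟩, ?_⟩
  · intro m hm
    have := Subgroup.mem_center_iff.1 c.2 ⟨m, hm⟩
    exact congrArg Subtype.val this
  · have : (c ^ p).1.1 = 1 := by rw [hcp]; rfl
    exact this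
  · intro h
    apply hc1
    apply Subtype.ext
    apply Subtype.ext
    exact congrArg pm h

theorem p_smul {p : ℕ} (v : V Q p) : p • v = 0 := by
  apply pm_inj
  have : pm (p • v) = (pm v) ^ p := rfl
  rw [this, (pm_mem v).2.2]; rfl

end H361AL
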