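import Pool.Agent.H361R3.AL.Cen
import Pool.Agent.H361R3.AL.Alg

/-!
Automorphic loops of odd prime power order have a nontrivial middle nucleus.
-/

namespace H361AL

variable {Q : Type*} [Loop Q] [Automorphic Q] [Finite Q]

theorem two_cancel {p : ℕ} (hp : Odd p) {v : V Q p} (h : v + v = 0) : v = 0 := by
  obtain ⟨m, hm⟩ := hp
  have h1 : (2 * m + 1) • v = 0 := by
    rw [← hm]; exact p_smul v
  rw [add_smul, mul_smul, one_smul, smul_comm, two_smul, h, smul_zero, zero_add] at h1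
  exact h1

/-- the bracket on `V` -/
noncomputable def B {p : ℕ} (v w : V Q p) : V Q p := D (pm v 1) w

theorem B_metabelian (hodd : Odd (Nat.card Q)) {p : ℕ} (hp : Odd p) (a b c d : V Q p) :
    B (B a b) (B c d) = 0 := by
  refine lie_metabelian (fun v hv => two_cancel hp hv) B ?_ ?_ ?_ a b c d
  · intro u v w; exact map_add _ _ _
  · intro u v; exact D_antisymm hodd u v
  · intro v w u
    have h := D_A v (pm w 1)
    rw [A_pm] at h
    have h2 : ((1 + D (pm v 1)) * D (pm w 1) : AddMonoid.End (V Q p)) u =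
      (D (pm (w + D (pm v 1) w) 1) * (1 + D (pm v 1)) : AddMonoid.End (V Q p)) u := by rw [h]
    change D (pm w 1) u + D (pm v 1) (D (pm w 1) u) =
      D (pm (w + D (pm v 1) w) 1) (u + D (pm v 1) u) at h2
    exact h2.symm

theorem B_add_left (hodd : Odd (Nat.card Q)) {p : ℕ} (u v w : V Q p) :
    B (u + v) w = B u w + B v w := by
  have h1 : B (u + v) w = - B w (u + v) := D_antisymm hodd _ _
  have h2 : B u w = - B w u := D_antisymm hodd _ _
  have h3 : B v w = - B w v := D_antisymm hodd _ _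
  have h4 : B w (u + v) = B w u + B w v := map_add _ _ _
  rw [h1, h2, h3, h4]; abel

theorem D_B (hodd : Odd (Nat.card Q)) {p : ℕ} (x : Q) (v w : V Q p) :
    ∃ v' w' : V Q p, D x (B v w) = B v' w' - B v w := by
  obtain ⟨n, hn, hn1⟩ := N_trans hodd x
  set h : Gh Q := ⟨n⁻¹ * L x, mul_mem (inv_mem (mlt_le (N_le_mlt hn))) (mlt_le (L_mem x))⟩ with hh
  have hm : h.1 ∈ Mlt Q := mul_mem (inv_mem (N_le_mlt hn)) (L_mem x)
  have h1 : h.1 1 = 1 := by
    change (n⁻¹ * L x) 1 = 1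
    rw [Equiv.Perm.mul_apply, L_one', Equiv.Perm.inv_eq_iff_eq, hn1]
  have hρ : (ρ h : AddMonoid.End (V Q p)) = ρ (Lg x) := by
    have e : h = ⟨n⁻¹, inv_mem (mlt_le (N_le_mlt hn))⟩ * Lg x := rfl
    rw [e, ρ_mul, ρ_N _ (inv_mem hn), one_mul]
  refine ⟨ρ h v, ρ h w, ?_⟩
  have h2 : ρ h (B v w) = B (ρ h v) (ρ h w) := by
    have h3 := ρ_D (p := p) h hm h1 (pm v 1)
    have h4 : h.1 (pm v 1) = pm (ρ h v) 1 := by
      rw [pm_ρ]
      have h9 : (h.1)⁻¹ 1 = 1 := by rw [Equiv.Perm.inv_eq_iff_eq, h1]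
      change h.1 (pm v 1) = h.1 (pm v ((h.1)⁻¹ 1))
      rw [h9]
    rw [h4] at h3
    have h5 : (ρ h * D (pm v 1) : AddMonoid.End (V Q p)) w =
        (D (pm (ρ h v) 1) * ρ h : AddMonoid.End (V Q p)) w := by
      rw [h3]
    exact h5
  rw [← h2, hρ, ρ_L_apply]; abel

/-- a nontrivial subgroup of `V` on which the bracket vanishes -/
theorem exists_V2 {p k : ℕ} (hp : p.Prime) (hp2 : Odd p) (hodd : Odd (Nat.card Q))
    (hcard : Nat.card Q = p ^ k) (hk : 1 ≤ k) :
    ∃ V2 : AddSubgroup (V Q p), (∃ v ∈ V2, v ≠ 0) ∧ (∀ x : Q, ∀ v ∈ V2, D x v ∈ V2) ∧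
      ∀ a ∈ V2, ∀ b ∈ V2, B a b = 0 := by
  by_cases hB : ∀ a b : V Q p, B a b = 0
  · obtain ⟨v, hv⟩ := exists_ne_zero (Q := Q) hp hodd hcard hk
    exact ⟨⊤, ⟨v, trivial, hv⟩, fun _ _ _ => trivial, fun a _ b _ => hB a b⟩
  · push Not at hB
    obtain ⟨a, b, hab⟩ := hB
    refine ⟨AddSubgroup.closure {c | ∃ v w : V Q p, c = B v w}, ⟨B a b, ?_, hab⟩, ?_, ?_⟩
    · exact AddSubgroup.subset_closure ⟨a, b, rfl⟩
    · intro x v hv
      induction hv using AddSubgroup.closure_induction with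
      | mem c hc =>
        obtain ⟨v, w, rfl⟩ := hc
        obtain ⟨v', w', h⟩ := D_B hodd x v w
        rw [h]
        exact sub_mem (AddSubgroup.subset_closure ⟨v', w', rfl⟩)
          (AddSubgroup.subset_closure ⟨v, w, rfl⟩)
      | zero => rw [map_zero]; exact zero_mem _
      | add c d _ _ hc hd => rw [map_add]; exact add_mem hc hd
      | neg c _ hc => rw [map_neg]; exact neg_mem hc
    · intro c hc
      induction hc using AddSubgroup.closure_induction with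
      | mem c hc =>
        obtain ⟨v, w, rfl⟩ := hc
        intro d hd
        induction hd using AddSubgroup.closure_induction with
        | mem d hd =>
          obtain ⟨v', w', rfl⟩ := hd
          exact B_metabelian hodd hp2 v w v' w'
        | zero => exact map_zero _
        | add c d _ _ hc hd =>
          have : B (B v w) (c + d) = B (B v w) c + B (B v w) d := map_add _ _ _
          rw [this, hc, hd, add_zero]
        | neg c _ hc =>
          have : B (B v w) (-c) = - B (B v w) c := map_neg _ _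
          rw [this, hc, neg_zero]
      | zero =>
        intro d _
        have h1 : B 0 d = - B d 0 := D_antisymm hodd _ _
        have h2 : B d 0 = 0 := map_zero _
        rw [h1, h2, neg_zero]
      | add c c' _ _ hc hc' =>
        intro d hd
        rw [B_add_left hodd, hc d hd, hc' d hd, add_zero]
      | neg c _ hc =>
        intro d hd
        have h1 : B (-c) d = - B d (-c) := D_antisymm hodd _ _
        have h2 : B d (-c) = - B d c := map_neg _ _
        have h3 : B c d = - B d c := D_antisymm hodd _ _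
        rw [h1, h2, ← h3, hc d hd, neg_zero]

/-- restriction of `D x` to an invariant subgroup -/
noncomputable def D2 {p : ℕ} (V2 : AddSubgroup (V Q p))
    (hV : ∀ x : Q, ∀ v ∈ V2, D x v ∈ V2) (x : Q) : AddMonoid.End V2 where
  toFun v := ⟨D x v.1, hV x v.1 v.2⟩
  map_zero' := Subtype.ext (map_zero _)
  map_add' a b := Subtype.ext (map_add _ _ _)

section
variable {p : ℕ} (V2 : AddSubgroup (V Q p)) (hV : ∀ x : Q, ∀ v ∈ V2, D x v ∈ V2)
  (hB : ∀ a ∈ V2, ∀ b ∈ V2, B a b = 0)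

omit [Finite Q] in
theorem D2_ext {f g : AddMonoid.End V2} (h : ∀ v : V2, (f v).1 = (g v).1) : f = g :=
  DFunLike.ext _ _ fun v => Subtype.ext (h v)

theorem D2_two (hp : Odd p) (e : AddMonoid.End V2) (h : e + e = 0) : e = 0 := by
  apply D2_ext
  intro v
  have h1 : (e + e) v = 0 := by rw [h]; rfl
  have h2 : (e v).1 + (e v).1 = 0 := congrArg Subtype.val h1
  exact two_cancel hp h2

include hB in
theorem D2_mul (hodd : Odd (Nat.card Q)) (x y : Q) :
    D2 V2 hV (x * y) = D2 V2 hV x + D2 V2 hV y +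
      (D2 V2 hV x * D2 V2 hV y - D2 V2 hV y * D2 V2 hV x) := by
  apply D2_ext
  intro v
  change D (x * y) v.1 = D x v.1 + D y v.1 + (D x (D y v.1) - D y (D x v.1))
  rw [D_mul hodd v.1 x y]
  have h1 : D ((A v.1).1 x) (D y v.1) = D x (D y v.1) := by
    have h2 := D_A v.1 x
    have h3 : ((1 + D (pm v.1 1)) * D x : AddMonoid.End (V Q p)) (D y v.1) =
      (D ((A v.1).1 x) * (1 + D (pm v.1 1)) : AddMonoid.End (V Q p)) (D y v.1) := by rw [h2]
    change D x (D y v.1) + D (pm v.1 1) (D x (D y v.1)) =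
      D ((A v.1).1 x) (D y v.1 + D (pm v.1 1) (D y v.1)) at h3
    have h4 : D (pm v.1 1) (D x (D y v.1)) = 0 := hB _ v.2 _ (hV x _ (hV y _ v.2))
    have h5 : D (pm v.1 1) (D y v.1) = 0 := hB _ v.2 _ (hV y _ v.2)
    rw [h4, h5, add_zero, add_zero] at h3
    exact h3.symm
  rw [h1]; abel

theorem D2_iv (hodd : Odd (Nat.card Q)) (x : Q) : D2 V2 hV (iv x) = - D2 V2 hV x := by
  apply D2_ext
  intro v
  change D (iv x) v.1 = - D x v.1
  rw [D_iv hodd]; rfl

include hB in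
theorem D2_P (hodd : Odd (Nat.card Q)) (hp : Odd p) (r z : Q) :
    D2 V2 hV ((s r * s (1 : Q)) z) = D2 V2 hV (r * r) + D2 V2 hV z +
      (D2 V2 hV (r * r) * D2 V2 hV z - D2 V2 hV z * D2 V2 hV (r * r)) * D2 V2 hV (r * r) ∧
    D2 V2 hV (r * r) * (D2 V2 hV (r * r) * D2 V2 hV z - D2 V2 hV z * D2 V2 hV (r * r)) *
      D2 V2 hV (r * r) = 0 := by
  set x := r * r with hx
  -- the left inner mapping
  have key : ∀ (c : Gh Q), c.1 ∈ Mlt Q → c.1 1 = 1 →
      (ρ c * D ((c.1)⁻¹ z) : AddMonoid.End (V Q p)) = D z * ρ c := by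
    intro c hm h1
    have := ρ_D (p := p) c hm h1 ((c.1)⁻¹ z)
    rwa [show c.1 ((c.1)⁻¹ z) = z from c.1.apply_symm_apply z] at this
  set c1 : Gh Q := (Pg r)⁻¹ * Lg x with hc1
  set c2 : Gh Q := (Pg r)⁻¹ * Rg x with hc2
  have hP1 : (s r * s (1 : Q))⁻¹ x = 1 := by
    rw [Equiv.Perm.inv_eq_iff_eq, P_one]
  have hc1m : c1.1 ∈ Mlt Q := mul_mem (inv_mem (P_mem_mlt r)) (L_mem x)
  have hc2m : c2.1 ∈ Mlt Q := mul_mem (inv_mem (P_mem_mlt r)) (R_mem x)
  have hc11 : c1.1 1 = 1 := by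
    change ((s r * s (1 : Q))⁻¹ * L x) 1 = 1
    rw [Equiv.Perm.mul_apply, L_one', hP1]
  have hc21 : c2.1 1 = 1 := by
    change ((s r * s (1 : Q))⁻¹ * R x) 1 = 1
    rw [Equiv.Perm.mul_apply, R_one', hP1]
  have hρP : (ρ (Pg r)⁻¹ : AddMonoid.End (V Q p)) = 1 := ρ_N _ (inv_mem (P_mem_N r))
  have hρ1 : (ρ c1 : AddMonoid.End (V Q p)) = 1 + D x := by
    rw [hc1, ρ_mul, hρP, one_mul, ρ_L]
  have hρ2 : (ρ c2 : AddMonoid.End (V Q p)) = 1 - D x := by
    rw [hc2, ρ_mul, hρP, one_mul, ρ_R, ρ_L, D_iv hodd]; abel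
  have k1 := key c1 hc1m hc11
  have k2 := key c2 hc2m hc21
  rw [hρ1] at k1
  rw [hρ2] at k2
  set y := (c1.1)⁻¹ z with hy
  set y' := (c2.1)⁻¹ z with hy'
  have hxy : x * y = (s r * s (1 : Q)) z := by
    have e1 : (L x) y = (s r * s (1 : Q)) (c1.1 y) := by
      change (L x) y = (s r * s (1 : Q)) (((s r * s (1 : Q))⁻¹ * L x) y)
      rw [← Equiv.Perm.mul_apply (s r * s (1 : Q))]
      congr 1
      group
    have e2 : c1.1 y = z := c1.1.apply_symm_apply z
    rw [e2] at e1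
    exact e1
  have hyx : y' * x = (s r * s (1 : Q)) z := by
    have e1 : (R x) y' = (s r * s (1 : Q)) (c2.1 y') := by
      change (R x) y' = (s r * s (1 : Q)) (((s r * s (1 : Q))⁻¹ * R x) y')
      rw [← Equiv.Perm.mul_apply (s r * s (1 : Q))]
      congr 1
      group
    have e2 : c2.1 y' = z := c2.1.apply_symm_apply z
    rw [e2] at e1
    exact e1
  apply ring_E (fun e he => D2_two V2 hp e he) (Y := D2 V2 hV y) (Y' := D2 V2 hV y')
  · rw [← hxy]; exact D2_mul V2 hV hB hodd x y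
  · rw [← hyx]; exact D2_mul V2 hV hB hodd y' x
  · apply D2_ext
    intro v
    have : ((1 + D x) * D y : AddMonoid.End (V Q p)) v.1 = 
      (D z * (1 + D x) : AddMonoid.End (V Q p)) v.1 := by rw [k1]
    exact this
  · apply D2_ext
    intro v
    have : ((1 - D x) * D y' : AddMonoid.End (V Q p)) v.1 = 
      (D z * (1 - D x) : AddMonoid.End (V Q p)) v.1 := by rw [k2]
    exact this

include hB in
theorem D2_key (hodd : Odd (Nat.card Q)) (hp : Odd p) (x z : Q) :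
    br (D2 V2 hV x) (D2 V2 hV z) * D2 V2 hV x = 0 := by
  obtain ⟨r, hr⟩ := sq_surj hodd x
  obtain ⟨he, h0⟩ := D2_P V2 hV hB hodd hp r z
  rw [hr] at he h0
  apply ring_F (fun e he => D2_two V2 hp e he) he h0
  · -- apply with `iv r`
    have h1 := (D2_P V2 hV hB hodd hp (iv r) ((s r * s (1 : Q)) z)).1
    have h2 : iv r * iv r = iv x := by rw [← aaip, hr]
    have h3 : (s (iv r) * s (1 : Q)) ((s r * s (1 : Q)) z) = z := by
      rw [← Equiv.Perm.mul_apply]
      have : s (iv r) * s (1 : Q) * (s r * s (1 : Q)) = 1 := by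
        rw [← conj_s_J, s_one]
        have e : J * s r * J * J * (s r * J) = J * (s r * (J * J) * s r) * J := by group
        rw [e, J_mul_J, mul_one, s_mul_s, mul_one, J_mul_J]
      rw [this]; rfl
    rw [h2, h3, D2_iv V2 hV hodd] at h1
    exact h1
  · have h1 := (D2_P V2 hV hB hodd hp r ((s r * s (1 : Q)) z)).1
    have h2 := (D2_P V2 hV hB hodd hp (r * r) z).1
    have h3 : (s (r * r) * s (1 : Q)) z = (s r * s (1 : Q)) ((s r * s (1 : Q)) z) := by
      rw [← Equiv.Perm.mul_apply (s r * s (1 : Q))]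
      congr 1
      rw [← s_apply_one, ← conj_s (s_mem r), s_inv]
      group
    rw [h3] at h2
    rw [hr] at h1 h2
    have h4 : D2 V2 hV (x * x) = D2 V2 hV x + D2 V2 hV x := by
      rw [D2_mul V2 hV hB hodd]; simp
    rw [h4] at h2
    rw [← h2, h1]

include hB in
theorem D2_add (hodd : Odd (Nat.card Q)) (hp : Odd p) (x z : Q) :
    ∃ u, D2 V2 hV u = D2 V2 hV x + D2 V2 hV z := by
  obtain ⟨r, hr⟩ := sq_surj hodd x
  obtain ⟨he, _⟩ := D2_P V2 hV hB hodd hp r z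
  rw [hr] at he
  refine ⟨_, he.trans ?_⟩
  have := D2_key V2 hV hB hodd hp x z
  rw [br] at this
  rw [this, add_zero]

include hB in
theorem D2_br (hodd : Odd (Nat.card Q)) (hp : Odd p) (x y : Q) :
    ∃ u, D2 V2 hV u = br (D2 V2 hV x) (D2 V2 hV y) := by
  obtain ⟨u1, h1⟩ := D2_add V2 hV hB hodd hp (x * y) (iv x)
  obtain ⟨u2, h2⟩ := D2_add V2 hV hB hodd hp u1 (iv y)
  refine ⟨u2, ?_⟩
  rw [h2, h1, D2_iv V2 hV hodd, D2_iv V2 hV hodd, D2_mul V2 hV hB hodd, br]
  abel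

end

/-- the main theorem -/
theorem main {p k : ℕ} (hp : p.Prime) (hp2 : p ≠ 2) (hcard : Nat.card Q = p ^ k) (hk : 1 ≤ k) :
    ∃ a : Q, a ≠ 1 ∧ ∀ x y : Q, (x * a) * y = x * (a * y) := by
  have hpo : Odd p := hp.odd_of_ne_two hp2
  have hodd : Odd (Nat.card Q) := by rw [hcard]; exact hpo.pow
  obtain ⟨V2, ⟨v0, hv0, hv0n⟩, hV, hB⟩ := exists_V2 hp hpo hodd hcard hk
  set Pr : AddMonoid.End V2 → Prop := fun e => ∃ x, D2 V2 hV x = e with hPr
  have h2 : ∀ e : AddMonoid.End V2, e + e = 0 → e = 0 := fun e he => D2_two V2 hpo e he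
  have hadd : ∀ X Y, Pr X → Pr Y → Pr (X + Y) := by
    rintro _ _ ⟨x, rfl⟩ ⟨y, rfl⟩
    exact D2_add V2 hV hB hodd hpo x y
  have hbr : ∀ X Y, Pr X → Pr Y → Pr (br X Y) := by
    rintro _ _ ⟨x, rfl⟩ ⟨y, rfl⟩
    exact D2_br V2 hV hB hodd hpo x y
  have h1 : ∀ X Z, Pr X → Pr Z → br X Z * X = 0 := by
    rintro _ _ ⟨x, rfl⟩ ⟨y, rfl⟩
    exact D2_key V2 hV hB hodd hpo x y
  have hfin : Finite ↥(W Q p) := inferInstance
  have hfinV : Finite (V Q p) := hfin
  have hfin2 : Finite V2 := inferInstance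
  obtain ⟨v, hv, hvC⟩ := common_kernel (V := V2) (ι := Q × Q)
    (fun i => br (D2 V2 hV i.1) (D2 V2 hV i.2))
    (fun i j => br_comm Pr h2 hadd hbr h1 ⟨_, rfl⟩ ⟨_, rfl⟩ ⟨_, rfl⟩ ⟨_, rfl⟩)
    (fun i => br_br Pr h2 hadd hbr h1 ⟨_, rfl⟩ ⟨_, rfl⟩ ⟨_, rfl⟩)
    ⟨⟨v0, hv0⟩, fun h => hv0n (congrArg Subtype.val h)⟩
  have hcomm : ∀ x y : Q, D x (D y v.1) = D y (D x v.1) := by
    intro x y
    have h3 := congrArg Subtype.val (hvC (x, y))
    change D x (D y v.1) - D y (D x v.1) = 0 at h3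
    exact sub_eq_zero.1 h3
  refine ⟨pm v.1 1, ?_, ?_⟩
  · intro h
    have h3 : pm v.1 1 = pm (0 : V Q p) 1 := by rw [h]; rfl
    exact hv (Subtype.ext (pm_semireg hodd h3))
  · intro x y
    have e1 : x * pm v.1 1 = pm (ρ (Lg x) v.1) x := by
      rw [mul_pm, Loop.mul_one']
    have e2 : pm v.1 1 * y = pm (ρ (Lg (iv y)) v.1) y := by
      rw [pm_mul, Loop.one_mul']
    rw [e1, e2, pm_mul, mul_pm]
    congr 2
    rw [ρ_L_apply, ρ_L_apply, ρ_L_apply, ρ_L_apply, map_add, map_add, D_iv hodd]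
    have e3 : (-D y : AddMonoid.End (V Q p)) (D x v.1) = D x ((-D y : AddMonoid.End (V Q p)) v.1) := by
      change -(D y (D x v.1)) = D x (-(D y v.1))
      rw [map_neg, hcomm]
    rw [e3]; abel

end H361AL
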