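import Pool.Agent.H361R3.AL.Basic

/-!
In an automorphic loop of odd order the only element of order dividing two is `1`.
-/

namespace H361AL

theorem sup_isPGroup {G : Type*} [Group G] {p : ℕ} {H K : Subgroup G} (hH : IsPGroup p H)
    (hK : IsPGroup p K) (h : ∀ a ∈ H, ∀ b ∈ K, a * b * a⁻¹ ∈ K) : IsPGroup p ↥(H ⊔ K) :=
  hH.to_sup_of_normal_right' hK (Subgroup.le_normalizer_iff.2 h)

theorem isPGroup_zpowers {G : Type*} [Group G] {p n : ℕ} {g : G} (h : g ^ p ^ n = 1) :
    IsPGroup p (Subgroup.zpowers g) := by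
  rintro ⟨_, k, rfl⟩
  refine ⟨n, ?_⟩
  ext
  simp only [Subgroup.coe_pow, Subgroup.coe_one]
  rw [← zpow_natCast, ← zpow_mul, mul_comm, zpow_mul, zpow_natCast, h, one_zpow]

variable {Q : Type*} [Loop Q] [Automorphic Q]

theorem iv_inj {x y : Q} (h : iv x = iv y) : x = y := by
  rw [← iv_iv x, h, iv_iv]

theorem s_one_apply (x : Q) : s (1 : Q) x = iv x := by rw [s_one, J_apply]

/-- the set of bad 2-subgroups -/
def Bad (U : Subgroup (Equiv.Perm Q)) : Prop :=
  U ≤ Mlt Q ∧ (∀ u ∈ U, u 1 = 1) ∧ IsPGroup 2 U ∧ ∃ x : Q, x ≠ 1 ∧ iv x = x ∧ ∀ u ∈ U, u x = x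

omit [Loop Q] [Automorphic Q] in
theorem exists_fixed [Finite Q] (hodd : Odd (Nat.card Q)) {E : Subgroup (Equiv.Perm Q)}
    (hE : IsPGroup 2 E) : ∃ z : Q, ∀ e ∈ E, e z = z := by
  have : Fact (Nat.Prime 2) := ⟨Nat.prime_two⟩
  have h2 : ¬ 2 ∣ Nat.card Q := by
    rw [← even_iff_two_dvd, Nat.not_even_iff_odd]; exact hodd
  obtain ⟨z, hz⟩ := hE.nonempty_fixed_point_of_prime_not_dvd_card Q h2
  refine ⟨z, fun e he => ?_⟩
  exact hz ⟨e, he⟩

theorem no_bad_step [Finite Q] (hodd : Odd (Nat.card Q)) {U : Subgroup (Equiv.Perm Q)}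
    (hU : Bad U) : ∃ V : Subgroup (Equiv.Perm Q), Bad V ∧ Nat.card U < Nat.card V := by
  obtain ⟨hUM, hU1, hU2, x, hx1, hxx, hUx⟩ := hU
  have hx2 : x * x = 1 := by
    have := mul_iv x
    rwa [hxx] at this
  -- the 2-part of `L x`
  have hord : orderOf (L x) ≠ 0 := (orderOf_pos (L x)).ne'
  obtain ⟨a, m, hm, ham⟩ := Nat.exists_eq_two_pow_mul_odd hord
  set g : Equiv.Perm Q := (L x) ^ m with hg
  have hg2 : g ^ 2 ^ a = 1 := by
    rw [hg, ← pow_mul, mul_comm m, ← ham, pow_orderOf_eq_one]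
  have hsq : ∀ j : ℕ, ((L x) ^ (2 * j)) 1 = 1 := by
    intro j
    induction j with
    | zero => simp
    | succ j ih =>
      have e : (L x) ^ (2 * (j + 1)) = (L x) ^ (2 * j) * (L x * L x) := by
        rw [mul_add, pow_add]; simp [pow_two]
      rw [e, Equiv.Perm.mul_apply, Equiv.Perm.mul_apply, L_one', L_apply, hx2, ih]
  have hg1 : g 1 = x := by
    obtain ⟨j, hj⟩ := hm
    rw [hg, hj, pow_succ', Equiv.Perm.mul_apply, hsq, L_one']
  have hgx : g x = 1 := by
    have : (g * g) 1 = 1 := by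
      rw [hg, ← pow_add, ← two_mul, hsq]
    rw [Equiv.Perm.mul_apply, hg1] at this
    exact this
  have hgM : g ∈ Mlt Q := pow_mem (L_mem x) m
  have hcomm : ∀ u ∈ U, u * g = g * u := by
    intro u hu
    have h := autL (hUM hu) (hU1 u hu) x
    rw [hUx u hu] at h
    exact (Commute.pow_right (show Commute u (L x) from h) m)
  -- the big 2-group
  have hg2' : IsPGroup 2 (Subgroup.zpowers g) := isPGroup_zpowers hg2
  have hs1 : IsPGroup 2 (Subgroup.zpowers (s (1 : Q))) :=
    isPGroup_zpowers (n := 1) (by rw [pow_one, pow_two, s_mul_s])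
  have hsx : IsPGroup 2 (Subgroup.zpowers (s x)) :=
    isPGroup_zpowers (n := 1) (by rw [pow_one, pow_two, s_mul_s])
  have hUg : IsPGroup 2 ↥(Subgroup.zpowers g ⊔ U) := by
    apply sup_isPGroup hg2' hU2
    rintro _ ⟨k, rfl⟩ b hb
    have h1 : Commute (g ^ k) b := Commute.zpow_left (show Commute g b from (hcomm b hb).symm) k
    simp only
    rw [h1.eq, mul_inv_cancel_right]
    exact hb
  -- commuting reflections
  have hc1x : s (1 : Q) * s x * (s (1 : Q))⁻¹ = s x := by
    rw [conj_s (s_mem 1), s_one_apply, hxx]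
  have hss : Commute (s (1 : Q)) (s x) := by
    have := hc1x
    rw [mul_inv_eq_iff_eq_mul] at this
    exact this
  have hS : IsPGroup 2 ↥(Subgroup.zpowers (s (1 : Q)) ⊔ Subgroup.zpowers (s x)) := by
    apply sup_isPGroup hs1 hsx
    rintro _ ⟨k, rfl⟩ _ ⟨l, rfl⟩
    have h1 : Commute ((s (1 : Q)) ^ k) ((s x) ^ l) := hss.zpow_zpow k l
    simp only
    rw [h1.eq, mul_inv_cancel_right]
    exact ⟨l, rfl⟩
  have hcg1 : g * s (1 : Q) * g⁻¹ = s x := by
    rw [conj_s (mlt_le hgM), hg1]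
  have hcgx : g * s x * g⁻¹ = s 1 := by
    rw [conj_s (mlt_le hgM), hgx]
  have hcu1 : ∀ u ∈ U, u * s (1 : Q) * u⁻¹ = s 1 := by
    intro u hu
    rw [conj_s (mlt_le (hUM hu)), hU1 u hu]
  have hcux : ∀ u ∈ U, u * s x * u⁻¹ = s x := by
    intro u hu
    rw [conj_s (mlt_le (hUM hu)), hUx u hu]
  set S := Subgroup.zpowers (s (1 : Q)) ⊔ Subgroup.zpowers (s x) with hSdef
  have hs1S : s (1 : Q) ∈ S := (le_sup_left : _ ≤ S) (Subgroup.mem_zpowers _)
  have hsxS : s x ∈ S := (le_sup_right : _ ≤ S) (Subgroup.mem_zpowers _)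
  have hE : IsPGroup 2 ↥((Subgroup.zpowers g ⊔ U) ⊔ S) := by
    apply hUg.to_sup_of_normal_right' hS
    apply sup_le
    · rw [Subgroup.zpowers_le, hSdef]
      have hS' : S = Subgroup.closure {s (1 : Q), s x} := by
        rw [hSdef, Subgroup.zpowers_eq_closure, Subgroup.zpowers_eq_closure,
          ← Subgroup.closure_union]; rfl
      rw [← hSdef, hS']
      apply Subgroup.normalizer_le_normalizer_closure
      rw [Subgroup.mem_normalizer_iff_conj_image_eq]
      rw [Set.image_pair]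
      simp only [MulAut.conj_apply, hcg1, hcgx]
      exact Set.pair_comm _ _
    · have hS' : S = Subgroup.closure {s (1 : Q), s x} := by
        rw [hSdef, Subgroup.zpowers_eq_closure, Subgroup.zpowers_eq_closure,
          ← Subgroup.closure_union]; rfl
      intro u hu
      rw [hS']
      apply Subgroup.normalizer_le_normalizer_closure
      rw [Subgroup.mem_normalizer_iff_conj_image_eq]
      rw [Set.image_pair]
      simp only [MulAut.conj_apply, hcu1 u hu, hcux u hu]
  obtain ⟨z, hz⟩ := exists_fixed hodd hE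
  have hzg : g z = z :=
    hz g ((le_sup_left.trans le_sup_left : Subgroup.zpowers g ≤ (Subgroup.zpowers g ⊔ U) ⊔ S)
      (Subgroup.mem_zpowers g))
  have hzU : ∀ u ∈ U, u z = z := fun u hu =>
    hz u ((le_sup_right.trans le_sup_left : U ≤ (Subgroup.zpowers g ⊔ U) ⊔ S) hu)
  have hz1 : s (1 : Q) z = z := hz _ ((le_sup_right : S ≤ (Subgroup.zpowers g ⊔ U) ⊔ S) hs1S)
  have hzx : s x z = z := hz _ ((le_sup_right : S ≤ (Subgroup.zpowers g ⊔ U) ⊔ S) hsxS)
  -- move the base point
  set k : Equiv.Perm Q := L z with hk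
  have hkM : k ∈ Mlt Q := L_mem z
  have hk1 : k 1 = z := L_one' z
  have hkz : k⁻¹ z = 1 := by rw [Equiv.Perm.inv_eq_iff_eq, hk1]
  set u := k⁻¹ 1 with hu
  set w := k⁻¹ x with hw
  have hku : k u = 1 := k.apply_symm_apply 1
  have hkw : k w = x := k.apply_symm_apply x
  have hsu : s u = k⁻¹ * s 1 * k := by
    have := conj_s (mlt_le (inv_mem hkM)) (1 : Q)
    rw [inv_inv] at this
    rw [this]
  have hsw : s w = k⁻¹ * s x * k := by
    have := conj_s (mlt_le (inv_mem hkM)) x
    rw [inv_inv] at this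
    rw [this]
  have huu : u * u = 1 := by
    rw [← s_apply_one, hsu]
    simp only [Equiv.Perm.mul_apply]
    rw [hk1, hz1, hkz]
  have hww : w * w = 1 := by
    rw [← s_apply_one, hsw]
    simp only [Equiv.Perm.mul_apply]
    rw [hk1, hzx, hkz]
  have hivu : iv u = u := (iv_unique huu).symm
  have hivw : iv w = w := (iv_unique hww).symm
  have hsuw : s u w = w := by
    rw [hsu]
    simp only [Equiv.Perm.mul_apply]
    rw [hkw, s_one_apply, hxx]
  obtain ⟨c, hc⟩ := (bij_left u).2 w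
  simp only at hc
  have hivc : iv c = c := by
    have h1 : (L u)⁻¹ w = c := by rw [Equiv.Perm.inv_eq_iff_eq, L_apply, hc]
    have h2 := hsuw
    rw [s] at h2
    simp only [Equiv.Perm.mul_apply] at h2
    rw [h1, J_apply, L_apply, ← hc] at h2
    exact (bij_left u).1 h2
  have hθm : L u * L (iv u) ∈ Mlt Q := mul_mem (L_mem _) (L_mem _)
  have hθ1 : (L u * L (iv u)) 1 = 1 := by
    rw [Equiv.Perm.mul_apply, L_one', L_apply, mul_iv]
  have hθc : (L u * L (iv u)) c = u * w := by
    rw [Equiv.Perm.mul_apply, hivu, L_apply, L_apply, hc]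
  have hivy : iv (u * w) = u * w := by
    have := aut_iv hθm hθ1 c
    rw [hivc, hθc] at this
    exact this.symm
  have hcommuw : w * u = u * w := by
    rw [← hivy, aaip, hivu, hivw]
  have hy1 : u * w ≠ 1 := by
    intro h
    have h1 : w = u := by rw [iv_unique h, hivu]
    apply hx1
    rw [← hkw, h1, hku]
  -- the new subgroup
  have hkey : ∀ e ∈ Subgroup.zpowers g ⊔ U, e ∈ Mlt Q ∧ e z = z ∧ e (k (u * w)) = k (u * w) := by
    have hle : Subgroup.zpowers g ⊔ U ≤
        Mlt Q ⊓ (MulAction.stabilizer (Equiv.Perm Q) z ⊓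
          MulAction.stabilizer (Equiv.Perm Q) (k (u * w))) := by
      apply sup_le
      · rw [Subgroup.zpowers_le]
        refine ⟨hgM, hzg, ?_⟩
        change g (k (u * w)) = k (u * w)
        have hvM : k⁻¹ * g * k ∈ Mlt Q := mul_mem (mul_mem (inv_mem hkM) hgM) hkM
        have hv1 : (k⁻¹ * g * k) 1 = 1 := by
          simp only [Equiv.Perm.mul_apply]
          rw [hk1, hzg, hkz]
        have hvu : (k⁻¹ * g * k) u = w := by
          simp only [Equiv.Perm.mul_apply]
          rw [hku, hg1]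
        have hvw : (k⁻¹ * g * k) w = u := by
          simp only [Equiv.Perm.mul_apply]
          rw [hkw, hgx]
        have := aut hvM hv1 u w
        rw [hvu, hvw, hcommuw] at this
        simp only [Equiv.Perm.mul_apply] at this
        rw [Equiv.Perm.inv_eq_iff_eq] at this
        exact this
      · intro e he
        refine ⟨hUM he, hzU e he, ?_⟩
        change e (k (u * w)) = k (u * w)
        have hvM : k⁻¹ * e * k ∈ Mlt Q := mul_mem (mul_mem (inv_mem hkM) (hUM he)) hkM
        have hv1 : (k⁻¹ * e * k) 1 = 1 := by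
          simp only [Equiv.Perm.mul_apply]
          rw [hk1, hzU e he, hkz]
        have hvu : (k⁻¹ * e * k) u = u := by
          simp only [Equiv.Perm.mul_apply]
          rw [hku, hU1 e he]
        have hvw : (k⁻¹ * e * k) w = w := by
          simp only [Equiv.Perm.mul_apply]
          rw [hkw, hUx e he]
        have := aut hvM hv1 u w
        rw [hvu, hvw] at this
        simp only [Equiv.Perm.mul_apply] at this
        rw [Equiv.Perm.inv_eq_iff_eq] at this
        exact this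
    intro e he
    obtain ⟨h1, h2, h3⟩ := hle he
    exact ⟨h1, h2, h3⟩
  refine ⟨(Subgroup.zpowers g ⊔ U).map (MulAut.conj k⁻¹).toMonoidHom, ⟨?_, ?_, ?_, u * w, hy1,
    hivy, ?_⟩, ?_⟩
  · rintro _ ⟨e, he, rfl⟩
    simp only [MulEquiv.toMonoidHom_eq_coe, MonoidHom.coe_coe, MulAut.conj_apply, inv_inv]
    exact mul_mem (mul_mem (inv_mem hkM) (hkey e he).1) hkM
  · rintro _ ⟨e, he, rfl⟩
    simp only [MulEquiv.toMonoidHom_eq_coe, MonoidHom.coe_coe, MulAut.conj_apply, inv_inv,
      Equiv.Perm.mul_apply]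
    rw [hk1, (hkey e he).2.1, hkz]
  · exact hUg.map _
  · rintro _ ⟨e, he, rfl⟩
    simp only [MulEquiv.toMonoidHom_eq_coe, MonoidHom.coe_coe, MulAut.conj_apply, inv_inv,
      Equiv.Perm.mul_apply]
    rw [(hkey e he).2.2, Equiv.Perm.inv_eq_iff_eq]
  · have hcard : Nat.card ↥((Subgroup.zpowers g ⊔ U).map (MulAut.conj k⁻¹).toMonoidHom) =
        Nat.card ↥(Subgroup.zpowers g ⊔ U) :=
      Nat.card_congr
        (Subgroup.equivMapOfInjective _ _ (MulAut.conj k⁻¹).injective).toEquiv.symm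
    rw [hcard]
    have hlt : U < Subgroup.zpowers g ⊔ U := by
      refine lt_of_le_of_ne le_sup_right ?_
      intro h
      have hgU : g ∈ U := by
        rw [h]; exact (le_sup_left : Subgroup.zpowers g ≤ _) (Subgroup.mem_zpowers g)
      apply hx1
      rw [← hg1, hU1 g hgU]
    exact Set.ncard_lt_ncard hlt (Set.toFinite _)

/-- no elements of order two in an automorphic loop of odd order -/
theorem eq_one_of_iv [Finite Q] (hodd : Odd (Nat.card Q)) {x : Q} (hx : iv x = x) : x = 1 := by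
  by_contra hx1
  have hne : {U : Subgroup (Equiv.Perm Q) | Bad U}.Nonempty := by
    refine ⟨⊥, bot_le, ?_, IsPGroup.of_bot, x, hx1, hx, ?_⟩
    · intro u hu; rw [Subgroup.mem_bot] at hu; rw [hu]; rfl
    · intro u hu; rw [Subgroup.mem_bot] at hu; rw [hu]; rfl
  obtain ⟨U, hU, hmax⟩ := Set.exists_max_image _ (fun U : Subgroup (Equiv.Perm Q) => Nat.card U)
    (Set.toFinite {U : Subgroup (Equiv.Perm Q) | Bad U}) hne
  obtain ⟨V, hV, hlt⟩ := no_bad_step hodd hU
  exact absurd (hmax V hV) (not_le.2 hlt)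

/-- a reflection `s a` fixes only `a` -/
theorem s_fix [Finite Q] (hodd : Odd (Nat.card Q)) {a x : Q} (h : s a x = x) : x = a := by
  have h1 : iv ((L a)⁻¹ x) = (L a)⁻¹ x := by
    rw [s] at h
    simp only [Equiv.Perm.mul_apply] at h
    apply (L a).injective
    rw [J_apply] at h
    rw [h]
    exact ((L a).apply_symm_apply x).symm
  have h2 := eq_one_of_iv hodd h1
  rw [Equiv.Perm.inv_eq_iff_eq, L_one'] at h2
  exact h2

end H361AL
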