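import Pool.Agent.H361R3.AL.Final

/-!
Automorphic loops of odd order for which the group `N` has a nontrivial centre.
-/

namespace H361AL

variable {Q : Type*} [Loop Q] [Automorphic Q] [Finite Q]

/-- a nontrivial subgroup of `V` on which the bracket vanishes -/
theorem exists_V2' {p : ℕ} (hp2 : Odd p) (hodd : Odd (Nat.card Q)) (hex : ∃ v : V Q p, v ≠ 0) :
    ∃ V2 : AddSubgroup (V Q p), (∃ v ∈ V2, v ≠ 0) ∧ (∀ x : Q, ∀ v ∈ V2, D x v ∈ V2) ∧
      ∀ a ∈ V2, ∀ b ∈ V2, B a b = 0 := by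
  by_cases hB : ∀ a b : V Q p, B a b = 0
  · obtain ⟨v, hv⟩ := hex
    exact ⟨⊤, ⟨v, trivial, hv⟩, fun _ _ _ => trivial, fun a _ b _ => hB a b⟩
  · push Not at hB
    obtain ⟨a, b, hab⟩ := hB
    refine ⟨AddSubgroup.closure {c | ∃ v w : V Q p, c = B v w}, ⟨B a b, ?_, hab⟩, ?_, ?_⟩
    · exact AddSubgroup.subset_closure ⟨a, b, rfl⟩
    · intro x v hv
      induction hv using AddSubgroup.closure_induction with
      | mem c hc =>
        obtain ⟨v, w, rfl⟩ := hc
        obtain ⟨v', w', h⟩ := D_B hodd x v w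
        rw [h]
        exact sub_mem (AddSubgroup.subset_closure ⟨v', w', rfl⟩)
          (AddSubgroup.subset_closure ⟨v, w, rfl⟩)
      | zero => rw [map_zero]; exact zero_mem _
      | add c d _ _ hc hd => rw [map_add]; exact add_mem hc hd
      | neg c _ hc => rw [map_neg]; exact neg_mem hc
    · intro c hc
      induction hc using AddSubgroup.closure_induction with
      | mem c hc =>
        obtain ⟨v, w, rfl⟩ := hc
        intro d hd
        induction hd using AddSubgroup.closure_induction with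
        | mem d hd =>
          obtain ⟨v', w', rfl⟩ := hd
          exact B_metabelian hodd hp2 v w v' w'
        | zero => exact map_zero _
        | add c d _ _ hc hd =>
          have : B (B v w) (c + d) = B (B v w) c + B (B v w) d := map_add _ _ _
          rw [this, hc, hd, add_zero]
        | neg c _ hc =>
          have : B (B v w) (-c) = - B (B v w) c := map_neg _ _
          rw [this, hc, neg_zero]
      | zero =>
        intro d _
        have h1 : B 0 d = - B d 0 := D_antisymm hodd _ _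
        have h2 : B d 0 = 0 := map_zero _
        rw [h1, h2, neg_zero]
      | add c c' _ _ hc hc' =>
        intro d hd
        rw [B_add_left hodd, hc d hd, hc' d hd, add_zero]
      | neg c _ hc =>
        intro d hd
        have h1 : B (-c) d = - B d (-c) := D_antisymm hodd _ _
        have h2 : B d (-c) = - B d c := map_neg _ _
        have h3 : B c d = - B d c := D_antisymm hodd _ _
        rw [h1, h2, ← h3, hc d hd, neg_zero]

/-- the main theorem -/
theorem main' {p : ℕ} (hpo : Odd p) (hodd : Odd (Nat.card Q)) (hex : ∃ v : V Q p, v ≠ 0) :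
    ∃ a : Q, a ≠ 1 ∧ ∀ x y : Q, (x * a) * y = x * (a * y) := by
  obtain ⟨V2, ⟨v0, hv0, hv0n⟩, hV, hB⟩ := exists_V2' hpo hodd hex
  set Pr : AddMonoid.End V2 → Prop := fun e => ∃ x, D2 V2 hV x = e with hPr
  have h2 : ∀ e : AddMonoid.End V2, e + e = 0 → e = 0 := fun e he => D2_two V2 hpo e he
  have hadd : ∀ X Y, Pr X → Pr Y → Pr (X + Y) := by
    rintro _ _ ⟨x, rfl⟩ ⟨y, rfl⟩
    exact D2_add V2 hV hB hodd hpo x y
  have hbr : ∀ X Y, Pr X → Pr Y → Pr (br X Y) := by
    rintro _ _ ⟨x, rfl⟩ ⟨y, rfl⟩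
    exact D2_br V2 hV hB hodd hpo x y
  have h1 : ∀ X Z, Pr X → Pr Z → br X Z * X = 0 := by
    rintro _ _ ⟨x, rfl⟩ ⟨y, rfl⟩
    exact D2_key V2 hV hB hodd hpo x y
  have hfin : Finite ↥(W Q p) := inferInstance
  have hfinV : Finite (V Q p) := hfin
  have hfin2 : Finite V2 := inferInstance
  obtain ⟨v, hv, hvC⟩ := common_kernel (V := V2) (ι := Q × Q)
    (fun i => br (D2 V2 hV i.1) (D2 V2 hV i.2))
    (fun i j => br_comm Pr h2 hadd hbr h1 ⟨_, rfl⟩ ⟨_, rfl⟩ ⟨_, rfl⟩ ⟨_, rfl⟩)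
    (fun i => br_br Pr h2 hadd hbr h1 ⟨_, rfl⟩ ⟨_, rfl⟩ ⟨_, rfl⟩)
    ⟨⟨v0, hv0⟩, fun h => hv0n (congrArg Subtype.val h)⟩
  have hcomm : ∀ x y : Q, D x (D y v.1) = D y (D x v.1) := by
    intro x y
    have h3 := congrArg Subtype.val (hvC (x, y))
    change D x (D y v.1) - D y (D x v.1) = 0 at h3
    exact sub_eq_zero.1 h3
  refine ⟨pm v.1 1, ?_, ?_⟩
  · intro h
    have h3 : pm v.1 1 = pm (0 : V Q p) 1 := by rw [h]; rfl
    exact hv (Subtype.ext (pm_semireg hodd h3))
  · intro x y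
    have e1 : x * pm v.1 1 = pm (ρ (Lg x) v.1) x := by
      rw [mul_pm, Loop.mul_one']
    have e2 : pm v.1 1 * y = pm (ρ (Lg (iv y)) v.1) y := by
      rw [pm_mul, Loop.one_mul']
    rw [e1, e2, pm_mul, mul_pm]
    congr 2
    rw [ρ_L_apply, ρ_L_apply, ρ_L_apply, ρ_L_apply, map_add, map_add, D_iv hodd]
    have e3 : (-D y : AddMonoid.End (V Q p)) (D x v.1) = D x ((-D y : AddMonoid.End (V Q p)) v.1) := by
      change -(D y (D x v.1)) = D x (-(D y v.1))
      rw [map_neg, hcomm]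
    rw [e3]; abel


theorem exists_W (hodd : Odd (Nat.card Q)) (hZ : Subgroup.center (N Q) ≠ ⊥) :
    ∃ p : ℕ, Odd p ∧ ∃ v : V Q p, v ≠ 0 := by
  have hnt : Nontrivial (Subgroup.center (N Q)) := (Subgroup.nontrivial_iff_ne_bot _).2 hZ
  have h1 : Nat.card (Subgroup.center (N Q)) ≠ 1 := by
    have := Finite.one_lt_card (α := Subgroup.center (N Q))
    omega
  obtain ⟨p, hp, hdvd⟩ := Nat.exists_prime_and_dvd h1
  have hfp : Fact p.Prime := ⟨hp⟩
  obtain ⟨c, hc⟩ := exists_prime_orderOf_dvd_card' p hdvd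
  have hcp : c ^ p = 1 := by rw [← hc]; exact pow_orderOf_eq_one c
  have hc1 : c ≠ 1 := by
    rintro rfl
    rw [orderOf_one] at hc
    exact hp.one_lt.ne hc
  have hW : (c.1.1 : Equiv.Perm Q) ∈ W Q p := by
    refine ⟨c.1.2, ?_, ?_⟩
    · intro n hn
      exact congrArg Subtype.val ((Subgroup.mem_center_iff.1 c.2) ⟨n, hn⟩)
    · have := congrArg (fun x : Subgroup.center (N Q) => x.1.1) hcp
      exact this
  have hWne : (c.1.1 : Equiv.Perm Q) ≠ 1 := by
    intro h
    exact hc1 (Subtype.ext (Subtype.ext h))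
  refine ⟨p, ?_, Additive.ofMul ⟨c.1.1, hW⟩, ?_⟩
  · rcases hp.eq_two_or_odd' with h2 | h2
    · exfalso
      subst h2
      have h3 : IsPGroup 2 (Subgroup.zpowers (c.1.1 : Equiv.Perm Q)) :=
        isPGroup_zpowers (n := 1) (by rw [pow_one]; exact hW.2.2)
      obtain ⟨z, hz⟩ := exists_fixed hodd h3
      exact hWne (W_semireg hodd hW (hz _ (Subgroup.mem_zpowers _)))
    · exact h2
  · intro h
    exact hWne (congrArg (fun v : V Q p => pm v) h)

theorem main_center (hodd : Odd (Nat.card Q)) (hZ : Subgroup.center (N Q) ≠ ⊥) :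
    ∃ a : Q, a ≠ 1 ∧ ∀ x y : Q, (x * a) * y = x * (a * y) := by
  obtain ⟨p, hp, hex⟩ := exists_W hodd hZ
  exact main' hp hodd hex

end H361AL
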