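import Pool.Agent.H361R3.AL.SylowT

/-!
Products of two point reflections in an automorphic loop of odd (prime power) order.
-/

namespace H361AL

variable {Q : Type*} [Loop Q] [Automorphic Q]

theorem s_inj [Finite Q] (hodd : Odd (Nat.card Q)) {a b : Q} (h : s a = s b) : a = b := by
  have h1 : s a b = b := by rw [h, s_self]
  exact (s_fix hodd h1).symm

theorem sw_inv (a b : Q) : (s a * s b)⁻¹ = s b * s a := by
  rw [mul_inv_rev, s_inv, s_inv]

theorem sw_mem (a b : Q) : s a * s b ∈ Gh Q := mul_mem (s_mem a) (s_mem b)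

/-- `(s a * s b) ^ j * s a` is again a reflection -/
theorem refl_pow (a b : Q) : ∀ j : ℕ, ∃ c, (s a * s b) ^ j * s a = s c := by
  have hstep : ∀ j : ℕ, (∃ c, (s a * s b) ^ j * s a = s c) →
      ∃ c, (s a * s b) ^ (j + 2) * s a = s c := by
    rintro j ⟨c, hc⟩
    refine ⟨(s a * s b) c, ?_⟩
    rw [← conj_s (sw_mem a b), ← hc, sw_inv]
    have e : s a * s b * s a = s a * s b * s a := rfl
    rw [pow_add]
    have : s a * s b * ((s a * s b) ^ j * s a) * (s b * s a) =
      (s a * s b) * (s a * s b) ^ j * (s a * s b) * s a := by group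
    rw [this]
    have h2 : (s a * s b) * (s a * s b) ^ j = (s a * s b) ^ j * (s a * s b) :=
      (Commute.pow_right (Commute.refl _) j)
    rw [h2, pow_two]
    group
  intro j
  induction j using Nat.strong_induction_on with
  | _ j ih =>
    match j with
    | 0 => exact ⟨a, by simp⟩
    | 1 =>
      refine ⟨s a b, ?_⟩
      rw [← conj_s (s_mem a), s_inv, pow_one]
    | (j + 2) => exact hstep j (ih j (by omega))

theorem pow_conj (a b : Q) (j : ℕ) : s a * (s a * s b) ^ j * s a = ((s a * s b) ^ j)⁻¹ := by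
  have h1 : s a * (s a * s b) * (s a)⁻¹ = (s a * s b)⁻¹ := by
    rw [sw_inv, s_inv]
    have : s a * (s a * s b) * s a = (s a * s a) * s b * s a := by group
    rw [this, s_mul_s, one_mul]
  have h2 : s a * (s a * s b) ^ j * (s a)⁻¹ = ((s a * s b)⁻¹) ^ j := by
    rw [← h1, conj_pow]
  rw [s_inv, inv_pow] at h2
  exact h2

theorem sq_one [Finite Q] (hodd : Odd (Nat.card Q)) (a b : Q) (n : ℕ)
    (h : (s a * s b) ^ n * (s a * s b) ^ n = 1) : (s a * s b) ^ n = 1 := by
  obtain ⟨c, hc⟩ := refl_pow a b n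
  have h1 : s a * s c * (s a)⁻¹ = s c := by
    rw [← hc, s_inv]
    have h2 := pow_conj a b n
    have h3 : ((s a * s b) ^ n)⁻¹ = (s a * s b) ^ n := by
      rw [inv_eq_iff_mul_eq_one]; exact h
    rw [h3] at h2
    have : s a * ((s a * s b) ^ n * s a) * s a = (s a * (s a * s b) ^ n * s a) * s a := by group
    rw [this, h2]
  rw [conj_s (s_mem a)] at h1
  have h2 := s_inj hodd h1
  have h3 := s_fix hodd h2
  rw [h3] at hc
  exact mul_eq_right.1 hc

theorem odd_order [Finite Q] (hodd : Odd (Nat.card Q)) (a b : Q) : Odd (orderOf (s a * s b)) := by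
  by_contra hne
  rw [Nat.not_odd_iff_even] at hne
  obtain ⟨m, hm⟩ := hne
  have hpos : 0 < orderOf (s a * s b) := orderOf_pos _
  have h1 : (s a * s b) ^ m * (s a * s b) ^ m = 1 := by
    rw [← pow_add, ← hm, pow_orderOf_eq_one]
  have h2 := sq_one hodd a b m h1
  have h3 := orderOf_dvd_of_pow_eq_one h2
  have h4 : 0 < m := by omega
  have := Nat.le_of_dvd h4 h3
  omega

theorem semireg [Finite Q] (hodd : Odd (Nat.card Q)) {x y z : Q} (h : (s y * s x) z = z) :
    y = x := by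
  set g := s y * s x with hg
  have hgz : g * s z * g⁻¹ = s z := by rw [conj_s (sw_mem y x), h]
  have hcz : Commute g (s z) := by
    rw [mul_inv_eq_iff_eq_mul] at hgz; exact hgz
  set k := s z * s x with hk
  have hkg : k * g = g⁻¹ * k := by
    have e1 : s x * g = g⁻¹ * s x := by
      rw [hg, sw_inv]
      group
    rw [hk]
    have e2 : s z * g⁻¹ = g⁻¹ * s z := (hcz.inv_left).symm.eq
    rw [mul_assoc, e1, ← mul_assoc, e2, mul_assoc]
  have hk2 : Commute (k * k) g := by
    change k * k * g = g * (k * k)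
    have e3 : k * g⁻¹ = g * k := by
      have : k * g⁻¹ = g * (g⁻¹ * k) * g⁻¹ := by group
      rw [this, ← hkg]; group
    rw [mul_assoc, hkg, ← mul_assoc, e3, mul_assoc]
  obtain ⟨m, hm⟩ := odd_order hodd z x
  have hkm : k * (k * k) ^ m = 1 := by
    have : k * (k * k) ^ m = k ^ (2 * m + 1) := by
      rw [pow_succ', pow_mul, pow_two]
    rw [this, ← hm, pow_orderOf_eq_one]
  have hkinv : k = ((k * k) ^ m)⁻¹ := eq_inv_of_mul_eq_one_left hkm
  have hkc : Commute k g := by
    rw [hkinv]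
    exact (hk2.pow_left m).inv_left
  have h1 : g⁻¹ * k = g * k := by rw [← hkg, hkc.eq]
  have h2 : g⁻¹ = g := mul_right_cancel h1
  have h3 : g ^ 1 * g ^ 1 = 1 := by
    rw [pow_one]
    nth_rewrite 1 [← h2]
    exact inv_mul_cancel g
  have h4 := sq_one hodd y x 1 h3
  rw [pow_one] at h4
  have h5 : s y = s x := by
    have := mul_eq_one_iff_eq_inv.1 h4
    rw [this, s_inv]
  exact s_inj hodd h5

theorem pow_semireg [Finite Q] (hodd : Odd (Nat.card Q)) (a b : Q) (j : ℕ) {z : Q}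
    (h : ((s a * s b) ^ j) z = z) : (s a * s b) ^ j = 1 := by
  obtain ⟨c, hc⟩ := refl_pow a b j
  have h1 : (s a * s b) ^ j = s c * s a := by
    rw [← hc, mul_assoc, s_mul_s, mul_one]
  rw [h1] at h ⊢
  rw [semireg hodd h, s_mul_s]

theorem pElem [Finite Q] {p k : ℕ} (hp : p.Prime) (hodd : Odd (Nat.card Q))
    (hcard : Nat.card Q = p ^ k) (a b : Q) : ∃ n, (s a * s b) ^ p ^ n = 1 := by
  refine ⟨(orderOf (s a * s b)).primeFactorsList.length, ?_⟩
  have hpos : 0 < orderOf (s a * s b) := orderOf_pos _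
  rw [← Nat.eq_prime_pow_of_unique_prime_dvd hpos.ne']
  · exact pow_orderOf_eq_one _
  intro d hd hdv
  by_contra hne
  obtain ⟨m, hm⟩ := hdv
  have hmpos : 0 < m := by
    rcases Nat.eq_zero_or_pos m with h | h
    · rw [h] at hm; omega
    · exact h
  have hfd : Fact d.Prime := ⟨hd⟩
  have h1 : ((s a * s b) ^ m) ^ d ^ 1 = 1 := by
    rw [pow_one, ← pow_mul, mul_comm, ← hm, pow_orderOf_eq_one]
  have h2 : IsPGroup d (Subgroup.zpowers ((s a * s b) ^ m)) := isPGroup_zpowers h1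
  have hnd : ¬ d ∣ Nat.card Q := by
    rw [hcard]
    intro h
    have := hd.dvd_of_dvd_pow h
    rw [Nat.prime_dvd_prime_iff_eq hd hp] at this
    exact hne this
  obtain ⟨z, hz⟩ := h2.nonempty_fixed_point_of_prime_not_dvd_card Q hnd
  have h3 : ((s a * s b) ^ m) z = z := hz ⟨_, Subgroup.mem_zpowers _⟩
  have h4 := pow_semireg hodd a b m h3
  have h5 := Nat.le_of_dvd hmpos (orderOf_dvd_of_pow_eq_one h4)
  rw [hm] at h5
  have := hd.two_le
  nlinarith

theorem gh_transitive (x y : Q) : ∃ g : Gh Q, g • x = y := by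
  refine ⟨⟨L y * (L x)⁻¹, mul_mem (mlt_le (L_mem y)) (inv_mem (mlt_le (L_mem x)))⟩, ?_⟩
  change (L y * (L x)⁻¹) x = y
  have h : (L x)⁻¹ x = 1 := by rw [Equiv.Perm.inv_eq_iff_eq, L_one']
  rw [Equiv.Perm.mul_apply, h, L_one']

/-- There is a `p`-group containing all products of two reflections. -/
theorem exists_pgroup [Finite Q] {p k : ℕ} (hp : p.Prime) (hodd : Odd (Nat.card Q))
    (hcard : Nat.card Q = p ^ k) :
    ∃ S : Subgroup (Equiv.Perm Q), IsPGroup p S ∧ S ≤ Gh Q ∧ ∀ a : Q, s a * s 1 ∈ S := by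
  have hfp : Fact p.Prime := ⟨hp⟩
  set j : Gh Q := ⟨J, J_mem⟩ with hj
  have hjj : j * j = 1 := by
    apply Subtype.ext
    exact J_mul_J
  obtain ⟨P, hP⟩ := sylow_trick (A := Gh Q) (p := p) hjj (by
    intro a
    obtain ⟨n, hn⟩ := pElem hp hodd hcard (1 : Q) (a.1 1)
    refine ⟨n, ?_⟩
    apply Subtype.ext
    have e : (j * a * j * a⁻¹ : Gh Q).1 = s 1 * s (a.1 1) := by
      have h1 := conj_s a.2 (1 : Q)
      rw [← h1, s_one]
      change J * a.1 * J * a.1⁻¹ = _
      group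
    have e2 : ((j * a * j * a⁻¹ : Gh Q) ^ p ^ n).1 = (s 1 * s (a.1 1)) ^ p ^ n := by
      rw [← e]; rfl
    rw [e2, hn]; rfl)
  refine ⟨(P : Subgroup (Gh Q)).map (Gh Q).subtype, P.isPGroup'.map _, ?_, ?_⟩
  · rintro _ ⟨x, _, rfl⟩
    exact x.2
  · intro a
    obtain ⟨t, htP, hta⟩ := sylow_transitive (A := Gh Q) (X := Q) hcard
      (fun x y => gh_transitive x y) P 1 a
    have hta' : t.1 1 = a := hta
    refine ⟨t * (j * t⁻¹ * j), mul_mem htP (hP _ (inv_mem htP)), ?_⟩
    change t.1 * (J * t.1⁻¹ * J) = s a * s 1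
    rw [← hta', ← conj_s t.2, s_one]
    group

end H361AL
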