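import Pool.Agent.H361R3.AL.Odd

/-!
A Sylow type argument: an involution `j` all of whose commutators are `p`-elements normalises a
Sylow `p`-subgroup.
-/

namespace H361AL

theorem sylow_trick {A : Type*} [Group A] [Finite A] {p : ℕ} [Fact p.Prime] {j : A}
    (hj : j * j = 1) (h : ∀ a : A, ∃ n, (j * a * j * a⁻¹) ^ p ^ n = 1) :
    ∃ P : Sylow p A, ∀ x ∈ P, j * x * j ∈ P := by
  have hji : j⁻¹ = j := by rw [inv_eq_iff_mul_eq_one]; exact hj
  have hne : {I : Subgroup A | IsPGroup p I ∧ ∀ i ∈ I, j * i * j ∈ I}.Nonempty := by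
    refine ⟨⊥, IsPGroup.of_bot, ?_⟩
    intro i hi
    rw [Subgroup.mem_bot] at hi ⊢
    rw [hi, mul_one, hj]
  obtain ⟨I, ⟨hIp, hIj⟩, hmax⟩ := Set.exists_max_image _ (fun U : Subgroup A => Nat.card U)
    (Set.toFinite {I : Subgroup A | IsPGroup p I ∧ ∀ i ∈ I, j * i * j ∈ I}) hne
  have hmax' : ∀ K : Subgroup A, I ≤ K → IsPGroup p K → (∀ i ∈ K, j * i * j ∈ K) → K = I := by
    intro K hIK hKp hKj
    by_contra hne
    have hlt : I < K := lt_of_le_of_ne hIK (Ne.symm hne)
    have h1 : Nat.card I < Nat.card K := Set.ncard_lt_ncard hlt (Set.toFinite _)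
    exact absurd (hmax K ⟨hKp, hKj⟩) (not_le.2 h1)
  obtain ⟨P, hIP⟩ := hIp.exists_le_sylow
  by_cases hEq : I = (P : Subgroup A)
  · refine ⟨P, ?_⟩
    intro x hx
    have h1 : x ∈ I := by rw [hEq]; exact hx
    have h2 := hIj x h1
    rw [hEq] at h2
    exact h2
  exfalso
  -- an element of `P` normalising `I`
  have hlt : I.subgroupOf (P : Subgroup A) < ⊤ := by
    rw [lt_top_iff_ne_top, Ne, Subgroup.subgroupOf_eq_top]
    intro h1
    exact hEq (le_antisymm hIP h1)
  have hPp : IsPGroup p ↥(P : Subgroup A) := P.isPGroup'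
  have hnil : Group.IsNilpotent ↥(P : Subgroup A) := hPp.isNilpotent
  have hnc := Group.normalizerCondition_of_isNilpotent (G := ↥(P : Subgroup A)) _ hlt
  obtain ⟨a', ha'N, ha'I⟩ := SetLike.exists_of_lt hnc
  set a : A := a'.1 with ha
  have haI : a ∉ I := by
    intro h1; exact ha'I (Subgroup.mem_subgroupOf.2 h1)
  have haN : a ∈ Subgroup.normalizer (I : Set A) := by
    rw [Subgroup.mem_normalizer_iff] at ha'N ⊢
    intro i
    constructor
    · intro hi
      have := (ha'N ⟨i, hIP hi⟩).1 (Subgroup.mem_subgroupOf.2 hi)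
      exact Subgroup.mem_subgroupOf.1 this
    · intro hi
      have hiP : i ∈ (P : Subgroup A) := by
        have h1 : a⁻¹ * (a * i * a⁻¹) * a ∈ (P : Subgroup A) :=
          mul_mem (mul_mem (inv_mem a'.2) (hIP hi)) a'.2
        have h2 : a⁻¹ * (a * i * a⁻¹) * a = i := by group
        rwa [h2] at h1
      have := (ha'N ⟨i, hiP⟩).2 (Subgroup.mem_subgroupOf.2 hi)
      exact Subgroup.mem_subgroupOf.1 this
  have hjN : j ∈ Subgroup.normalizer (I : Set A) := by
    rw [Subgroup.mem_normalizer_iff]
    intro i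
    rw [hji]
    constructor
    · exact hIj i
    · intro hi
      have h1 := hIj _ hi
      have h2 : j * (j * i * j) * j = (j * j) * i * (j * j) := by group
      rwa [h2, hj, one_mul, mul_one] at h1
  set u : A := j * a * j * a⁻¹ with hu
  have huN : u ∈ Subgroup.normalizer (I : Set A) :=
    mul_mem (mul_mem (mul_mem hjN haN) hjN) (inv_mem haN)
  obtain ⟨n, hn⟩ := h a
  have hup : IsPGroup p (Subgroup.zpowers u) := isPGroup_zpowers hn
  have hK : IsPGroup p ↥(Subgroup.zpowers u ⊔ I) :=
    hup.to_sup_of_normal_right' hIp (by rw [Subgroup.zpowers_le]; exact huN)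
  have hjuj : j * u * j = u⁻¹ := by
    rw [hu]
    simp only [mul_inv_rev, inv_inv, hji]
    have : j * (j * a * j * a⁻¹) * j = (j * j) * a * j * a⁻¹ * j := by group
    rw [this, hj, one_mul]
    group
  have hKj : ∀ i ∈ Subgroup.zpowers u ⊔ I, j * i * j ∈ Subgroup.zpowers u ⊔ I := by
    have hle : Subgroup.zpowers u ⊔ I ≤
        (Subgroup.zpowers u ⊔ I).comap (MulAut.conj j).toMonoidHom := by
      apply sup_le
      · rw [Subgroup.zpowers_le]
        rw [Subgroup.mem_comap]
        simp only [MulEquiv.toMonoidHom_eq_coe, MonoidHom.coe_coe, MulAut.conj_apply, hji]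
        rw [hjuj]
        exact inv_mem ((le_sup_left : Subgroup.zpowers u ≤ _) (Subgroup.mem_zpowers u))
      · intro i hi
        rw [Subgroup.mem_comap]
        simp only [MulEquiv.toMonoidHom_eq_coe, MonoidHom.coe_coe, MulAut.conj_apply, hji]
        exact (le_sup_right : I ≤ _) (hIj i hi)
    intro i hi
    have := hle hi
    rw [Subgroup.mem_comap] at this
    simpa only [MulEquiv.toMonoidHom_eq_coe, MonoidHom.coe_coe, MulAut.conj_apply, hji] using this
  have hKI := hmax' _ le_sup_right hK hKj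
  have huI : u ∈ I := by
    rw [← hKI]; exact (le_sup_left : Subgroup.zpowers u ≤ _) (Subgroup.mem_zpowers u)
  -- the subgroup generated by `a` and `I`
  have h3P : Subgroup.zpowers a ⊔ I ≤ (P : Subgroup A) :=
    sup_le (by rw [Subgroup.zpowers_le]; exact a'.2) hIP
  have h3p : IsPGroup p ↥(Subgroup.zpowers a ⊔ I) := hPp.to_le h3P
  have h3j : ∀ i ∈ Subgroup.zpowers a ⊔ I, j * i * j ∈ Subgroup.zpowers a ⊔ I := by
    have hle : Subgroup.zpowers a ⊔ I ≤
        (Subgroup.zpowers a ⊔ I).comap (MulAut.conj j).toMonoidHom := by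
      apply sup_le
      · rw [Subgroup.zpowers_le]
        rw [Subgroup.mem_comap]
        simp only [MulEquiv.toMonoidHom_eq_coe, MonoidHom.coe_coe, MulAut.conj_apply, hji]
        have e : j * a * j = u * a := by rw [hu]; group
        rw [e]
        exact mul_mem ((le_sup_right : I ≤ _) huI)
          ((le_sup_left : Subgroup.zpowers a ≤ _) (Subgroup.mem_zpowers a))
      · intro i hi
        rw [Subgroup.mem_comap]
        simp only [MulEquiv.toMonoidHom_eq_coe, MonoidHom.coe_coe, MulAut.conj_apply, hji]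
        exact (le_sup_right : I ≤ _) (hIj i hi)
    intro i hi
    have := hle hi
    rw [Subgroup.mem_comap] at this
    simpa only [MulEquiv.toMonoidHom_eq_coe, MonoidHom.coe_coe, MulAut.conj_apply, hji] using this
  have h3I := hmax' _ le_sup_right h3p h3j
  apply haI
  rw [← h3I]
  exact (le_sup_left : Subgroup.zpowers a ≤ _) (Subgroup.mem_zpowers a)

/-- a Sylow `p`-subgroup of a finite transitive group of degree `p ^ k` is transitive -/
theorem sylow_transitive {A : Type*} [Group A] [Finite A] {p k : ℕ} [hp : Fact p.Prime]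
    {X : Type*} [MulAction A X] [Finite X] (hcard : Nat.card X = p ^ k)
    (htr : ∀ x y : X, ∃ g : A, g • x = y) (P : Sylow p A) (x y : X) :
    ∃ g ∈ P, g • x = y := by
  have hi : (MulAction.stabilizer A x).index = p ^ k := by
    rw [MulAction.index_stabilizer, ← hcard]
    have : MulAction.orbit A x = Set.univ := by
      rw [Set.eq_univ_iff_forall]
      intro y
      exact htr x y
    rw [this, Set.ncard_univ]
  have h1 : (MulAction.stabilizer A x).index ∣
      (MulAction.stabilizer A x ⊓ (P : Subgroup A)).index :=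
    Subgroup.index_dvd_of_le inf_le_left
  have h2 := Subgroup.relIndex_mul_index
    (inf_le_right : MulAction.stabilizer A x ⊓ (P : Subgroup A) ≤ (P : Subgroup A))
  rw [← h2, hi, Subgroup.inf_relIndex_right] at h1
  have hcop : Nat.Coprime (p ^ k) (P : Subgroup A).index := by
    apply Nat.Coprime.pow_left
    rw [Nat.Prime.coprime_iff_not_dvd hp.out]
    exact P.not_dvd_index
  have h3 := hcop.dvd_of_dvd_mul_right h1
  have h4 : (MulAction.stabilizer A x).relIndex (P : Subgroup A) =
      (MulAction.orbit (P : Subgroup A) x).ncard := by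
    rw [← MulAction.index_stabilizer]
    rfl
  rw [h4] at h3
  have h5 : (MulAction.orbit (P : Subgroup A) x).ncard = Nat.card X := by
    apply le_antisymm
    · exact Set.ncard_le_card _
    · rw [hcard]
      apply Nat.le_of_dvd _ h3
      rw [Set.ncard_pos]
      exact ⟨x, MulAction.mem_orbit_self x⟩
  have h6 : MulAction.orbit (P : Subgroup A) x = Set.univ := by
    rw [Set.eq_univ_iff_ncard]
    exact h5
  have h7 : y ∈ MulAction.orbit (P : Subgroup A) x := by rw [h6]; trivial
  obtain ⟨g, hg⟩ := h7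
  exact ⟨g.1, g.2, hg⟩

end H361AL
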